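import Mathlib
import Pool.Agent.H646.Defs
import Pool.Agent.H646.Cheb
import Pool.Agent.H646.Moment
import Pool.Agent.H646.Tuples

set_option autoImplicit false

/-!
# The vectors of consecutive prime gaps: a bound for the number of visits to a set
-/

namespace Pool.Agent.V11270.PG

open Finset
open Pool.Agent.H646 (P rat)
open Pool.Agent.H646.ChebM (P_le P_strictMono le_P long_few)
open Pool.Agent.H646.MomentM (rat_moment)
open Pool.Agent.H646.TuplesM (tuple_bound prod_le_sum_pow rat_ge_one rat_nonneg sum_le_of_inj)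

/-- the vector of the `k` gaps after the prime of index `n` -/
noncomputable def V (k n : ℕ) : Fin k → ℕ := fun t => P (n + t + 1) - P (n + t)

lemma V_pos (k n : ℕ) (t : Fin k) : 1 ≤ V k n t := by
  have := P_strictMono (show n + (t : ℕ) < n + t + 1 by omega)
  unfold V
  omega

/-- sums of the gaps with index in `[i, j)` -/
def sg {k : ℕ} (v : Fin k → ℕ) (i j : ℕ) : ℕ := ∑ t : Fin k, if i ≤ (t : ℕ) ∧ (t : ℕ) < j then v t else 0

lemma sg_split {k : ℕ} (v : Fin k → ℕ) (i j : ℕ) (h : i ≤ j) : sg v 0 j = sg v 0 i + sg v i j := by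
  unfold sg
  rw [← Finset.sum_add_distrib]
  refine Finset.sum_congr rfl fun t _ => ?_
  by_cases h1 : (t : ℕ) < i
  · rw [if_pos ⟨Nat.zero_le _, by omega⟩, if_pos ⟨Nat.zero_le _, h1⟩, if_neg (by omega), add_zero]
  · by_cases h2 : (t : ℕ) < j
    · rw [if_pos ⟨Nat.zero_le _, h2⟩, if_neg (by omega), if_pos ⟨by omega, h2⟩, zero_add]
    · rw [if_neg (by omega), if_neg (by omega), if_neg (by omega)]

lemma sg_le {k : ℕ} (v : Fin k → ℕ) (H i j : ℕ) (hv : ∀ t, v t ≤ H) : sg v i j ≤ k * H := by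
  unfold sg
  calc _ ≤ ∑ _t : Fin k, H := by
        refine Finset.sum_le_sum fun t _ => ?_
        split_ifs
        · exact hv t
        · exact Nat.zero_le _
    _ = k * H := by rw [Finset.sum_const, Finset.card_univ, Fintype.card_fin, smul_eq_mul]

lemma sg_pos {k : ℕ} (v : Fin k → ℕ) (i j : ℕ) (hi : i < k) (hij : i < j) (hv : ∀ t, 1 ≤ v t) :
    1 ≤ sg v i j := by
  unfold sg
  calc 1 ≤ v ⟨i, hi⟩ := hv _
    _ = if i ≤ ((⟨i, hi⟩ : Fin k) : ℕ) ∧ ((⟨i, hi⟩ : Fin k) : ℕ) < j then v ⟨i, hi⟩ else 0 := by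
        rw [if_pos ⟨le_rfl, hij⟩]
    _ ≤ _ := Finset.single_le_sum (f := fun t : Fin k => if i ≤ (t : ℕ) ∧ (t : ℕ) < j then v t else 0)
        (fun _ _ => Nat.zero_le _) (Finset.mem_univ _)

lemma sg_V (k n j : ℕ) (hj : j ≤ k) : P n + sg (V k n) 0 j = P (n + j) := by
  induction j with
  | zero =>
    have : sg (V k n) 0 0 = 0 := by
      unfold sg
      refine Finset.sum_eq_zero fun t _ => ?_
      rw [if_neg (by omega)]
    rw [this]
    rfl
  | succ j ih =>
    have h1 := ih (by omega)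
    have h2 : sg (V k n) j (j + 1) = V k n ⟨j, by omega⟩ := by
      unfold sg
      rw [Finset.sum_eq_single (⟨j, by omega⟩ : Fin k)]
      · rw [if_pos ⟨le_rfl, by simp⟩]
      · intro t _ ht
        rw [if_neg]
        intro h3
        apply ht
        apply Fin.ext
        show (t : ℕ) = j
        omega
      · intro h3
        exact absurd (Finset.mem_univ _) h3
    rw [sg_split (V k n) j (j + 1) (by omega), h2]
    have h3 := P_strictMono (show n + j < n + j + 1 by omega)
    show P n + (sg (V k n) 0 j + (P (n + j + 1) - P (n + j))) = P (n + (j + 1))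
    rw [show n + (j + 1) = n + j + 1 by ring]
    omega

/-- moments of the ratio at the sums of the gaps -/
lemma mom (k A : ℕ) : ∃ C > (0 : ℝ), ∀ H : ℕ, ∀ i j : ℕ, i < k → i < j →
    ∑ v ∈ Fintype.piFinset (fun _ : Fin k => Icc 1 H), rat (sg v i j) ^ A ≤ C * ((H : ℝ) + 1) ^ k := by
  obtain ⟨C, hC, hmom⟩ := rat_moment A
  refine ⟨C * (k + 1), by positivity, ?_⟩
  intro H i j hi hij
  classical
  set i0 : Fin k := ⟨i, hi⟩ with hi0
  set B : Finset (Fin k → ℕ) := Fintype.piFinset (fun t : Fin k => if t = i0 then Icc 1 (k * H) else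
    Icc 1 H) with hB
  have h1 := sum_le_of_inj (Fintype.piFinset (fun _ : Fin k => Icc 1 H))
    (fun v => Function.update v i0 (sg v i j)) B (fun w => rat (w i0) ^ A)
    (fun w => pow_nonneg (rat_nonneg _) _) (by
      intro v hv
      rw [Fintype.mem_piFinset] at hv
      rw [hB, Fintype.mem_piFinset]
      intro t
      by_cases ht : t = i0
      · subst ht
        rw [Function.update_self, if_pos rfl, mem_Icc]
        exact ⟨sg_pos v i j hi hij fun t => (mem_Icc.1 (hv t)).1,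
          sg_le v H i j fun t => (mem_Icc.1 (hv t)).2⟩
      · rw [Function.update_of_ne ht, if_neg ht]
        exact hv t) (by
      intro v hv w hw hvw
      have h2 : ∀ t, t ≠ i0 → v t = w t := by
        intro t ht
        have := congrFun hvw t
        simp only [Function.update_of_ne ht] at this
        exact this
      have h3 : sg v i j = sg w i j := by
        have := congrFun hvw i0
        simp only [Function.update_self] at this
        exact this
      have h4 : ∀ u : Fin k → ℕ, sg u i j = u i0 + ∑ t ∈ univ.erase i0,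
          (if i ≤ (t : ℕ) ∧ (t : ℕ) < j then u t else 0) := by
        intro u
        unfold sg
        rw [← Finset.add_sum_erase _ _ (Finset.mem_univ i0), if_pos ⟨le_rfl, hij⟩]
      rw [h4 v, h4 w] at h3
      have h5 : ∑ t ∈ univ.erase i0, (if i ≤ (t : ℕ) ∧ (t : ℕ) < j then v t else 0) =
          ∑ t ∈ univ.erase i0, (if i ≤ (t : ℕ) ∧ (t : ℕ) < j then w t else 0) := by
        refine Finset.sum_congr rfl fun t ht => ?_
        rw [h2 t (Finset.ne_of_mem_erase ht)]
      funext t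
      by_cases ht : t = i0
      · subst ht
        omega
      · exact h2 t ht)
  have h2 : ∑ v ∈ Fintype.piFinset (fun _ : Fin k => Icc 1 H), rat (sg v i j) ^ A =
      ∑ v ∈ Fintype.piFinset (fun _ : Fin k => Icc 1 H),
        rat (Function.update v i0 (sg v i j) i0) ^ A := by
    refine Finset.sum_congr rfl fun v _ => ?_
    rw [Function.update_self]
  have h3 : ∑ w ∈ B, rat (w i0) ^ A = (∑ u ∈ Icc 1 (k * H), rat u ^ A) * (H : ℝ) ^ (k - 1) := by
    have h4 : ∀ w ∈ B, rat (w i0) ^ A = ∏ t : Fin k, (if t = i0 then rat (w t) ^ A else 1) := by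
      intro w _
      rw [Finset.prod_ite_eq' univ i0 (fun t => rat (w t) ^ A), if_pos (Finset.mem_univ _)]
    rw [Finset.sum_congr rfl h4, hB]
    rw [← Finset.prod_univ_sum (fun t : Fin k => if t = i0 then Icc 1 (k * H) else Icc 1 H)
      (fun t u => if t = i0 then rat u ^ A else 1)]
    rw [← Finset.mul_prod_erase univ _ (Finset.mem_univ i0)]
    congr 1
    · simp
    · have h5 : ∀ t ∈ univ.erase i0, (∑ u ∈ (if t = i0 then Icc 1 (k * H) else Icc 1 H),
          (if t = i0 then rat u ^ A else (1 : ℝ))) = H := by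
        intro t ht
        have ht' := Finset.ne_of_mem_erase ht
        simp [ht']
      rw [Finset.prod_congr rfl h5, Finset.prod_const, Finset.card_erase_of_mem (Finset.mem_univ _),
        Finset.card_univ, Fintype.card_fin]
  rw [h2]
  refine h1.trans ?_
  rw [h3]
  have h6 := hmom (k * H)
  have hH : (0 : ℝ) ≤ H := Nat.cast_nonneg _
  have hkr : (0 : ℝ) ≤ k := Nat.cast_nonneg _
  calc (∑ u ∈ Icc 1 (k * H), rat u ^ A) * (H : ℝ) ^ (k - 1)
      ≤ (C * ((k * H : ℕ) : ℝ)) * (H : ℝ) ^ (k - 1) := by gcongr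
    _ ≤ (C * ((k + 1) * ((H : ℝ) + 1))) * ((H : ℝ) + 1) ^ (k - 1) := by
        push_cast
        gcongr
        · linarith
        · linarith
        · linarith
    _ = C * (k + 1) * (((H : ℝ) + 1) ^ (k - 1) * ((H : ℝ) + 1)) := by ring
    _ = C * (k + 1) * ((H : ℝ) + 1) ^ k := by
        rw [← pow_succ, Nat.sub_add_cancel (by omega)]

/-- **the master bound**: visits of the gap vector to a set `D` -/
theorem master (k : ℕ) : ∃ C > (0 : ℝ), ∃ N₀ : ℕ, ∀ N : ℕ, N₀ ≤ N → ∀ H : ℕ,
    ∀ D : Finset (Fin k → ℕ), (∀ v ∈ D, ∀ t, v t ≤ H) →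
      (#{n ∈ range N | V k n ∈ D} : ℝ) ^ 2 ≤
        C * (N : ℝ) ^ 2 * (#D / Real.log N ^ k) * (((H : ℝ) + 1) / Real.log N) ^ k := by
  classical
  obtain ⟨C, hC, A, x₀, hb⟩ := tuple_bound (k + 1) (by omega)
  obtain ⟨C₀, hC₀, hP⟩ := P_le
  set Q : Finset (Fin (k + 1) × Fin (k + 1)) :=
    (univ : Finset (Fin (k + 1) × Fin (k + 1))).filter (fun q => q.1 < q.2) with hQ
  rcases Nat.eq_zero_or_pos k with hk0 | hk
  · subst hk0
    refine ⟨1, one_pos, 0, ?_⟩
    intro N _ H D _
    rcases Finset.eq_empty_or_nonempty D with h | h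
    · subst h
      simp
    · have h1 : #D = 1 := by
        rw [Finset.card_eq_one]
        obtain ⟨v, hv⟩ := h
        refine ⟨v, ?_⟩
        ext w
        rw [Finset.mem_singleton]
        constructor
        · intro _
          exact Subsingleton.elim _ _
        · intro hw
          rw [hw]
          exact hv
      rw [h1]
      have h2 : (#{n ∈ range N | V 0 n ∈ D} : ℝ) ≤ N := by
        have := Finset.card_filter_le (range N) (fun n => V 0 n ∈ D)
        rw [Finset.card_range] at this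
        exact_mod_cast this
      simp only [pow_zero, Nat.cast_one, div_one, mul_one, one_mul]
      have h3 : (0 : ℝ) ≤ (#{n ∈ range N | V 0 n ∈ D} : ℝ) := Nat.cast_nonneg _
      gcongr
  have hQne : Q.Nonempty := by
    refine ⟨(0, Fin.last k), ?_⟩
    rw [hQ, mem_filter]
    refine ⟨mem_univ _, ?_⟩
    rw [Fin.lt_def]
    simpa using hk
  obtain ⟨C2, hC2, hmom⟩ := mom k (2 * (A * #Q))
  have hQpos : (0 : ℝ) < #Q := by exact_mod_cast hQne.card_pos
  refine ⟨(C * C₀ * #Q) ^ 2 * C2, by positivity, max (max x₀ 2) 2, ?_⟩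
  intro N hN H D hD
  have hNx : x₀ ≤ N := (le_max_left _ _).trans ((le_max_left _ _).trans hN)
  have hN2 : 2 ≤ N := (le_max_right _ _).trans hN
  have hN2r : (2 : ℝ) ≤ N := by exact_mod_cast hN2
  have hlN : 0 < Real.log N := Real.log_pos (by linarith)
  have hPN : N ≤ P N := by
    have := le_P N
    omega
  have hPNr : (N : ℝ) ≤ P N := by exact_mod_cast hPN
  have hlP : Real.log N ≤ Real.log (P N) := Real.log_le_log (by linarith) hPNr
  -- restrict to positive vectors
  set D1 : Finset (Fin k → ℕ) := D.filter (fun v => ∀ t, 1 ≤ v t) with hD1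
  have hD1sub : D1 ⊆ Fintype.piFinset (fun _ : Fin k => Icc 1 H) := by
    intro v hv
    obtain ⟨h1, h2⟩ := mem_filter.1 hv
    rw [Fintype.mem_piFinset]
    intro t
    rw [mem_Icc]
    exact ⟨h2 t, hD v h1 t⟩
  have hcount : (#{n ∈ range N | V k n ∈ D} : ℝ) ≤
      ∑ v ∈ D1, (#{n ∈ Icc 1 (P N) | ∀ j : Fin (k + 1), (n + sg v 0 j).Prime} : ℝ) := by
    have h1 : #{n ∈ range N | V k n ∈ D} = ∑ v ∈ D1, #{n ∈ {n ∈ range N | V k n ∈ D} | V k n = v} := by
      apply Finset.card_eq_sum_card_fiberwise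
      intro n hn
      rw [mem_coe, mem_filter] at hn
      rw [mem_coe, hD1, mem_filter]
      exact ⟨hn.2, fun t => V_pos k n t⟩
    rw [h1]
    push_cast
    refine Finset.sum_le_sum fun v hv => ?_
    have h2 : #{n ∈ {n ∈ range N | V k n ∈ D} | V k n = v} ≤
        #{n ∈ Icc 1 (P N) | ∀ j : Fin (k + 1), (n + sg v 0 j).Prime} := by
      apply Finset.card_le_card_of_injOn (fun n => P n)
      · intro n hn
        rw [mem_coe, mem_filter, mem_filter, mem_range] at hn
        obtain ⟨⟨h3, -⟩, h4⟩ := hn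
        rw [mem_coe, mem_filter, mem_Icc]
        refine ⟨⟨?_, ?_⟩, ?_⟩
        · show 1 ≤ P n
          have := le_P n
          omega
        · show P n ≤ P N
          exact P_strictMono.monotone h3.le
        · intro j
          rw [← h4, sg_V k n j (by omega)]
          exact Nat.prime_nth_prime _
      · intro n _ m _ hnm
        exact P_strictMono.injective hnm
    exact_mod_cast h2
  have hterm : ∀ v ∈ D1, (#{n ∈ Icc 1 (P N) | ∀ j : Fin (k + 1), (n + sg v 0 j).Prime} : ℝ) ≤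
      C * (P N : ℕ) / Real.log (P N : ℕ) ^ (k + 1) * ∑ q ∈ Q, rat (sg v q.1 q.2) ^ (A * #Q) := by
    intro v hv
    obtain ⟨-, hv1⟩ := mem_filter.1 hv
    have hmono : StrictMono (fun j : Fin (k + 1) => sg v 0 j) := by
      intro a b hab
      have hab' : (a : ℕ) < b := hab
      have h1 := sg_split v a b hab'.le
      have h2 := sg_pos v a b (by omega) hab' hv1
      show sg v 0 a < sg v 0 b
      omega
    have h1 := hb (P N) (hNx.trans hPN) (fun j : Fin (k + 1) => sg v 0 j) hmono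
    refine h1.trans ?_
    have hcoef : 0 ≤ C * (P N : ℕ) / Real.log (P N : ℕ) ^ (k + 1) := by
      have : 0 ≤ Real.log (P N : ℕ) := by linarith
      positivity
    refine mul_le_mul_of_nonneg_left ?_ hcoef
    have h2 : ∀ q ∈ Q, sg v 0 q.2 - sg v 0 q.1 = sg v q.1 q.2 := by
      intro q hq
      have hq' : (q.1 : ℕ) < q.2 := (mem_filter.1 hq).2
      have := sg_split v q.1 q.2 hq'.le
      omega
    rw [Finset.prod_congr rfl fun q hq => by rw [h2 q hq]]
    refine (prod_le_sum_pow Q _ ?_ hQne).trans (le_of_eq ?_)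
    · intro q hq
      have hq' : (q.1 : ℕ) < q.2 := (mem_filter.1 hq).2
      exact one_le_pow₀ (rat_ge_one (sg_pos v q.1 q.2 (by omega) hq' hv1))
    · refine Finset.sum_congr rfl fun q _ => ?_
      rw [pow_mul]
  set M : ℝ := ∑ v ∈ D1, ∑ q ∈ Q, rat (sg v q.1 q.2) ^ (A * #Q) with hM
  have hM0 : 0 ≤ M := Finset.sum_nonneg fun v _ => Finset.sum_nonneg fun q _ =>
    pow_nonneg (rat_nonneg _) _
  have hMle : M ^ 2 ≤ (#Q : ℝ) ^ 2 * (#D * (C2 * ((H : ℝ) + 1) ^ k)) := by
    have h1 : M = ∑ q ∈ Q, ∑ v ∈ D1, rat (sg v q.1 q.2) ^ (A * #Q) := by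
      rw [hM, Finset.sum_comm]
    have h2 : ∀ q ∈ Q, (∑ v ∈ D1, rat (sg v q.1 q.2) ^ (A * #Q)) ^ 2 ≤
        #D * (C2 * ((H : ℝ) + 1) ^ k) := by
      intro q hq
      have hq' : (q.1 : ℕ) < q.2 := (mem_filter.1 hq).2
      have h3 := sq_sum_le_card_mul_sum_sq (s := D1) (f := fun v => rat (sg v q.1 q.2) ^ (A * #Q))
      have h4 : ∑ v ∈ D1, (rat (sg v q.1 q.2) ^ (A * #Q)) ^ 2 ≤ C2 * ((H : ℝ) + 1) ^ k := by
        refine le_trans ?_ (hmom H q.1 q.2 (by omega) hq')
        calc ∑ v ∈ D1, (rat (sg v q.1 q.2) ^ (A * #Q)) ^ 2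
            = ∑ v ∈ D1, rat (sg v q.1 q.2) ^ (2 * (A * #Q)) := by
              refine Finset.sum_congr rfl fun v _ => ?_
              rw [← pow_mul]
              congr 1
              ring
          _ ≤ _ := Finset.sum_le_sum_of_subset_of_nonneg hD1sub
              fun v _ _ => pow_nonneg (rat_nonneg _) _
      have h5 : (#D1 : ℝ) ≤ #D := by exact_mod_cast Finset.card_filter_le _ _
      calc _ ≤ (#D1 : ℝ) * ∑ v ∈ D1, (rat (sg v q.1 q.2) ^ (A * #Q)) ^ 2 := h3
        _ ≤ #D * (C2 * ((H : ℝ) + 1) ^ k) := by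
            apply mul_le_mul h5 h4 (Finset.sum_nonneg fun v _ => sq_nonneg _) (Nat.cast_nonneg _)
    rw [h1]
    have h6 := sq_sum_le_card_mul_sum_sq (s := Q)
      (f := fun q => ∑ v ∈ D1, rat (sg v q.1 q.2) ^ (A * #Q))
    refine h6.trans ?_
    calc (#Q : ℝ) * ∑ q ∈ Q, (∑ v ∈ D1, rat (sg v q.1 q.2) ^ (A * #Q)) ^ 2
        ≤ (#Q : ℝ) * ∑ _q ∈ Q, (#D * (C2 * ((H : ℝ) + 1) ^ k)) := by
          refine mul_le_mul_of_nonneg_left (Finset.sum_le_sum h2) (Nat.cast_nonneg _)
      _ = _ := by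
          rw [Finset.sum_const, nsmul_eq_mul]
          ring
  have hcoef : C * (P N : ℕ) / Real.log (P N : ℕ) ^ (k + 1) ≤ C * C₀ * N / Real.log N ^ k := by
    have h1 := hP N hN2
    have hlP0 : 0 < Real.log (P N : ℕ) := lt_of_lt_of_le hlN hlP
    rw [div_le_div_iff₀ (by positivity) (by positivity)]
    calc C * (P N : ℕ) * Real.log N ^ k ≤ C * (C₀ * (N * Real.log N)) * Real.log N ^ k := by gcongr
      _ = C * C₀ * N * Real.log N ^ (k + 1) := by ring
      _ ≤ C * C₀ * N * Real.log (P N : ℕ) ^ (k + 1) := by gcongr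
  have hfin : (#{n ∈ range N | V k n ∈ D} : ℝ) ≤ C * C₀ * N / Real.log N ^ k * M := by
    calc (#{n ∈ range N | V k n ∈ D} : ℝ)
        ≤ ∑ v ∈ D1, C * (P N : ℕ) / Real.log (P N : ℕ) ^ (k + 1) *
            ∑ q ∈ Q, rat (sg v q.1 q.2) ^ (A * #Q) := hcount.trans (Finset.sum_le_sum hterm)
      _ = C * (P N : ℕ) / Real.log (P N : ℕ) ^ (k + 1) * M := by rw [← Finset.mul_sum]
      _ ≤ _ := mul_le_mul_of_nonneg_right hcoef hM0
  have h0 : (0 : ℝ) ≤ (#{n ∈ range N | V k n ∈ D} : ℝ) := Nat.cast_nonneg _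
  calc (#{n ∈ range N | V k n ∈ D} : ℝ) ^ 2 ≤ (C * C₀ * N / Real.log N ^ k * M) ^ 2 := by gcongr
    _ = (C * C₀ * N / Real.log N ^ k) ^ 2 * M ^ 2 := by ring
    _ ≤ (C * C₀ * N / Real.log N ^ k) ^ 2 * ((#Q : ℝ) ^ 2 * (#D * (C2 * ((H : ℝ) + 1) ^ k))) := by
        gcongr
    _ = _ := by
        rw [div_pow (((H : ℝ) + 1))]
        field_simp

end Pool.Agent.V11270.PG
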