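import Mathlib
import Pool.Agent.V11270.PG.Mast

set_option autoImplicit false

/-!
# No linear form in consecutive prime gaps is small on several windows in a row
-/

namespace Pool.Agent.V11270.PG

open Finset Filter
open Pool.Agent.H646 (P rat)
open Pool.Agent.H646.ChebM (P_le P_strictMono le_P long_few)

/-- the linear form `∑ b_l d_{n+l}` -/
noncomputable def LL {r : ℕ} (b : Fin (r + 1) → ℝ) (n : ℕ) : ℝ :=
  ∑ l : Fin (r + 1), b l * ((P (n + l + 1) : ℝ) - P (n + l))

lemma card_D (r q H : ℕ) (b : Fin (r + 1) → ℝ) (l0 : Fin (r + 1)) (hb : 1 / 2 ≤ |b l0|) (E : ℝ)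
    (hE : 0 ≤ E) :
    #{v ∈ Fintype.piFinset (fun _ : Fin (q * (r + 1)) => range (H + 1)) |
      ∀ i : Fin q, |∑ l : Fin (r + 1), b l * (v (finProdFinEquiv (i, l)) : ℝ)| ≤ E} ≤
      (⌊4 * E⌋₊ + 1) ^ q * (H + 1) ^ (q * r) := by
  classical
  set W : ℕ := ⌊4 * E⌋₊ with hW
  have hcard : #(Fintype.piFinset (fun t : Fin (q * (r + 1)) =>
      if (finProdFinEquiv.symm t).2 = l0 then range (W + 1) else range (H + 1))) =
      (W + 1) ^ q * (H + 1) ^ (q * r) := by
    rw [Fintype.card_piFinset]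
    have h1 : ∀ t : Fin (q * (r + 1)), #(if (finProdFinEquiv.symm t).2 = l0 then range (W + 1) else
        range (H + 1)) = if (finProdFinEquiv.symm t).2 = l0 then W + 1 else H + 1 := by
      intro t
      split_ifs <;> simp
    rw [Finset.prod_congr rfl fun t _ => h1 t]
    rw [← Equiv.prod_comp (finProdFinEquiv (m := q) (n := r + 1))
      (fun t => if (finProdFinEquiv.symm t).2 = l0 then W + 1 else H + 1)]
    rw [Fintype.prod_prod_type]
    have h2 : ∀ i : Fin q, ∏ l : Fin (r + 1),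
        (if (finProdFinEquiv.symm (finProdFinEquiv (i, l))).2 = l0 then W + 1 else H + 1) =
        (W + 1) * (H + 1) ^ r := by
      intro i
      have h3 : ∀ l : Fin (r + 1), (if (finProdFinEquiv.symm (finProdFinEquiv (i, l))).2 = l0 then
          W + 1 else H + 1) = if l = l0 then W + 1 else H + 1 := by
        intro l
        rw [Equiv.symm_apply_apply]
      rw [Finset.prod_congr rfl fun l _ => h3 l]
      rw [← Finset.mul_prod_erase univ _ (Finset.mem_univ l0), if_pos rfl]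
      congr 1
      have h4 : ∀ l ∈ univ.erase l0, (if l = l0 then W + 1 else H + 1) = H + 1 := by
        intro l hl
        rw [if_neg (Finset.ne_of_mem_erase hl)]
      rw [Finset.prod_congr rfl h4, Finset.prod_const, Finset.card_erase_of_mem (Finset.mem_univ _),
        Finset.card_univ, Fintype.card_fin]
      rfl
    rw [Finset.prod_congr rfl fun i _ => h2 i, Finset.prod_const, Finset.card_univ, Fintype.card_fin,
      mul_pow, ← pow_mul, mul_comm r q]
  rw [← hcard]
  apply Finset.card_le_card_of_injOn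
    (fun v t => if (finProdFinEquiv.symm t).2 = l0 then v t % (W + 1) else v t)
  · intro v hv
    rw [mem_coe, mem_filter, Fintype.mem_piFinset] at hv
    rw [mem_coe, Fintype.mem_piFinset]
    intro t
    by_cases h : (finProdFinEquiv.symm t).2 = l0
    · simp only [h, if_true]
      rw [mem_range]
      exact Nat.mod_lt _ (Nat.succ_pos _)
    · simp only [h, if_false]
      exact hv.1 t
  · intro v hv w hw hvw
    rw [mem_coe, mem_filter] at hv hw
    have h1 : ∀ t, (finProdFinEquiv.symm t).2 ≠ l0 → v t = w t := by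
      intro t ht
      have := congrFun hvw t
      simpa only [ht, if_false] using this
    funext t
    by_cases ht : (finProdFinEquiv.symm t).2 = l0
    · have h2 : v t % (W + 1) = w t % (W + 1) := by
        have := congrFun hvw t
        simpa only [ht, if_true] using this
      obtain ⟨⟨i, l⟩, hil⟩ : ∃ p, p = finProdFinEquiv.symm t := ⟨_, rfl⟩
      have hl : l = l0 := by
        rw [← hil] at ht
        exact ht
      subst hl
      have ht2 : t = finProdFinEquiv (i, l) := by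
        rw [hil, Equiv.apply_symm_apply]
      have h3 : ∑ l' : Fin (r + 1), b l' * (v (finProdFinEquiv (i, l')) : ℝ) -
          ∑ l' : Fin (r + 1), b l' * (w (finProdFinEquiv (i, l')) : ℝ) = b l * ((v t : ℝ) - w t) := by
        rw [← Finset.sum_sub_distrib, Finset.sum_eq_single l]
        · rw [ht2]
          ring
        · intro l' _ hl'
          rw [h1 (finProdFinEquiv (i, l')) (by rw [Equiv.symm_apply_apply]; exact hl')]
          ring
        · intro h
          exact absurd (Finset.mem_univ _) h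
      have h4 := hv.2 i
      have h5 := hw.2 i
      have h6 : |b l| * |(v t : ℝ) - w t| ≤ 2 * E := by
        rw [← abs_mul, ← h3]
        exact (abs_sub _ _).trans (by linarith)
      have h7 : |(v t : ℝ) - w t| ≤ 4 * E := by
        nlinarith [abs_nonneg ((v t : ℝ) - w t)]
      have h8 : |((w t : ℤ)) - v t| < ((W + 1 : ℕ) : ℤ) := by
        have h9 : (|((w t : ℤ)) - v t| : ℤ) ≤ W := by
          have h10 : ((|((w t : ℤ)) - v t| : ℤ) : ℝ) ≤ 4 * E := by
            push_cast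
            rw [abs_sub_comm]
            exact h7
          have h11 : (|((w t : ℤ)) - v t| : ℤ).toNat ≤ W := by
            rw [hW]
            apply Nat.le_floor
            have h12 : (((|((w t : ℤ)) - v t| : ℤ).toNat : ℤ) : ℝ) = ((|((w t : ℤ)) - v t| : ℤ) : ℝ) := by
              rw [Int.toNat_of_nonneg (abs_nonneg _)]
            have h13 : (((|((w t : ℤ)) - v t| : ℤ).toNat : ℤ) : ℝ) =
              (((|((w t : ℤ)) - v t| : ℤ).toNat : ℕ) : ℝ) := by push_cast; rfl
            rw [← h13, h12]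
            exact h10
          omega
        push_cast
        omega
      exact Nat.ModEq.eq_of_abs_lt h2 h8
    · exact h1 t ht

lemma V_win (r q n : ℕ) (i : Fin q) (b : Fin (r + 1) → ℝ) :
    ∑ l : Fin (r + 1), b l * (V (q * (r + 1)) n (finProdFinEquiv (i, l)) : ℝ) =
      LL b (n + (r + 1) * i) := by
  unfold LL
  refine Finset.sum_congr rfl fun l _ => ?_
  congr 1
  unfold V
  have h1 : ((finProdFinEquiv (i, l) : Fin (q * (r + 1))) : ℕ) = l + (r + 1) * i := rfl
  rw [h1, show n + ((l : ℕ) + (r + 1) * i) = n + (r + 1) * i + l by ring]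
  rw [Nat.cast_sub]
  exact P_strictMono.monotone (by omega)

/-- the bound for one form -/
theorem anti (r q : ℕ) : ∃ C > (0 : ℝ), ∀ h : ℝ, 1 ≤ h → ∀ ε : ℝ, 0 < ε → ε ≤ 1 →
    ∃ N₀ : ℕ, ∀ N : ℕ, N₀ ≤ N → ∀ b : Fin (r + 1) → ℝ, (∃ l0, 1 / 2 ≤ |b l0|) →
      (#{n ∈ range N | (P (n + (2 * q) * (r + 1)) : ℝ) - P n ≤ h * Real.log N ∧
        ∀ i < 2 * q, |LL b (n + (r + 1) * i)| ≤ ε * Real.log N} : ℝ) ≤
        C * h ^ ((2 * q) * (r + 1)) * ε ^ q * N := by
  classical
  obtain ⟨C, hC, N₁, hmas⟩ := master ((2 * q) * (r + 1))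
  refine ⟨√C * 5 ^ q * 2 ^ ((2 * q) * (r + 1)), by positivity, ?_⟩
  intro h hh ε hε hε1
  refine ⟨max N₁ (⌈Real.exp (1 / ε)⌉₊), ?_⟩
  intro N hN b hb
  obtain ⟨l0, hl0⟩ := hb
  have hN1 : N₁ ≤ N := (le_max_left _ _).trans hN
  have hexp : Real.exp (1 / ε) ≤ N := (Nat.le_ceil _).trans (by exact_mod_cast (le_max_right _ _).trans hN)
  have hNpos : (0 : ℝ) < N := (Real.exp_pos _).trans_le hexp
  set T : ℝ := Real.log N with hT
  have hTε : 1 / ε ≤ T := by
    rw [hT, Real.le_log_iff_exp_le hNpos]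
    exact hexp
  have hεT : 1 ≤ ε * T := by
    have := mul_le_mul_of_nonneg_left hTε hε.le
    rwa [mul_one_div, div_self hε.ne'] at this
  have hT1 : 1 ≤ T := by nlinarith
  have hT0 : 0 < T := by linarith
  set H : ℕ := ⌊h * T⌋₊ with hH
  have hHr : (H : ℝ) + 1 ≤ 2 * h * T := by
    have h1 : (H : ℝ) ≤ h * T := Nat.floor_le (by positivity)
    nlinarith
  set D : Finset (Fin ((2 * q) * (r + 1)) → ℕ) :=
    {v ∈ Fintype.piFinset (fun _ : Fin ((2 * q) * (r + 1)) => range (H + 1)) |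
      ∀ i : Fin (2 * q), |∑ l : Fin (r + 1), b l * (v (finProdFinEquiv (i, l)) : ℝ)| ≤ ε * T} with hD
  have hDc := card_D r (2 * q) H b l0 hl0 (ε * T) (by positivity)
  rw [← hD] at hDc
  have hWr : ((⌊4 * (ε * T)⌋₊ : ℕ) : ℝ) + 1 ≤ 5 * ε * T := by
    have h1 : ((⌊4 * (ε * T)⌋₊ : ℕ) : ℝ) ≤ 4 * (ε * T) := Nat.floor_le (by positivity)
    nlinarith
  have hDr : (#D : ℝ) ≤ (5 * ε * T) ^ (2 * q) * (2 * h * T) ^ ((2 * q) * r) := by
    calc (#D : ℝ) ≤ (((⌊4 * (ε * T)⌋₊ + 1) ^ (2 * q) * (H + 1) ^ ((2 * q) * r) : ℕ) : ℝ) := by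
          exact_mod_cast hDc
      _ = (((⌊4 * (ε * T)⌋₊ : ℕ) : ℝ) + 1) ^ (2 * q) * ((H : ℝ) + 1) ^ ((2 * q) * r) := by
          push_cast
          rfl
      _ ≤ _ := by gcongr
  have hm := hmas N hN1 H D (fun v hv t => by
    have h1 := (mem_filter.1 hv).1
    rw [Fintype.mem_piFinset] at h1
    have := mem_range.1 (h1 t)
    omega)
  rw [← hT] at hm
  have hsub : #{n ∈ range N | (P (n + (2 * q) * (r + 1)) : ℝ) - P n ≤ h * T ∧
        ∀ i < 2 * q, |LL b (n + (r + 1) * i)| ≤ ε * T} ≤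
      #{n ∈ range N | V ((2 * q) * (r + 1)) n ∈ D} := by
    apply Finset.card_le_card
    intro n hn
    rw [mem_filter] at hn ⊢
    obtain ⟨h1, h2, h3⟩ := hn
    refine ⟨h1, ?_⟩
    rw [hD, mem_filter, Fintype.mem_piFinset]
    refine ⟨?_, ?_⟩
    · intro t
      rw [mem_range]
      have h4 : V ((2 * q) * (r + 1)) n t ≤ H := by
        rw [hH]
        apply Nat.le_floor
        refine le_trans ?_ h2
        unfold V
        have h5 : P (n + t) ≤ P (n + t + 1) := P_strictMono.monotone (by omega)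
        have h6 : P n ≤ P (n + t) := P_strictMono.monotone (by omega)
        have h7 : P (n + t + 1) ≤ P (n + (2 * q) * (r + 1)) := P_strictMono.monotone (by
          have := t.2
          omega)
        rw [Nat.cast_sub h5]
        have h6' : (P n : ℝ) ≤ P (n + t) := by exact_mod_cast h6
        have h7' : (P (n + t + 1) : ℝ) ≤ P (n + (2 * q) * (r + 1)) := by exact_mod_cast h7
        linarith
      omega
    · intro i
      rw [V_win]
      exact h3 i i.2
  set x : ℝ := (#{n ∈ range N | (P (n + (2 * q) * (r + 1)) : ℝ) - P n ≤ h * T ∧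
        ∀ i < 2 * q, |LL b (n + (r + 1) * i)| ≤ ε * T} : ℝ) with hx
  have hxle : x ≤ (#{n ∈ range N | V ((2 * q) * (r + 1)) n ∈ D} : ℝ) := by
    rw [hx]
    exact_mod_cast hsub
  have hx0 : 0 ≤ x := by
    rw [hx]
    exact Nat.cast_nonneg _
  have h1 : x ^ 2 ≤ C * (N : ℝ) ^ 2 * (#D / T ^ ((2 * q) * (r + 1))) *
      (((H : ℝ) + 1) / T) ^ ((2 * q) * (r + 1)) := (pow_le_pow_left₀ hx0 hxle 2).trans hm
  have h2 : (#D : ℝ) / T ^ ((2 * q) * (r + 1)) ≤ (5 * ε) ^ (2 * q) * (2 * h) ^ ((2 * q) * r) := by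
    rw [div_le_iff₀ (by positivity)]
    refine hDr.trans (le_of_eq ?_)
    rw [mul_pow (5 * ε) T, mul_pow (2 * h) T, show (2 * q) * (r + 1) = 2 * q + (2 * q) * r by ring, pow_add]
    ring
  have h3 : (((H : ℝ) + 1) / T) ^ ((2 * q) * (r + 1)) ≤ (2 * h) ^ ((2 * q) * (r + 1)) := by
    apply pow_le_pow_left₀ (by positivity)
    rw [div_le_iff₀ hT0]
    exact hHr
  have h4 : (2 * h) ^ ((2 * q) * r) ≤ (2 * h) ^ ((2 * q) * (r + 1)) :=
    pow_le_pow_right₀ (by linarith) (Nat.mul_le_mul_left _ (by omega))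
  have h5 : x ^ 2 ≤ (√C * 5 ^ q * 2 ^ ((2 * q) * (r + 1)) * h ^ ((2 * q) * (r + 1)) * ε ^ q * N) ^ 2 := by
    refine h1.trans ?_
    calc C * (N : ℝ) ^ 2 * (#D / T ^ ((2 * q) * (r + 1))) *
          (((H : ℝ) + 1) / T) ^ ((2 * q) * (r + 1))
        ≤ C * (N : ℝ) ^ 2 * ((5 * ε) ^ (2 * q) * (2 * h) ^ ((2 * q) * (r + 1))) *
          (2 * h) ^ ((2 * q) * (r + 1)) := by
          have h6 : (#D : ℝ) / T ^ ((2 * q) * (r + 1)) ≤
              (5 * ε) ^ (2 * q) * (2 * h) ^ ((2 * q) * (r + 1)) :=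
            h2.trans (mul_le_mul_of_nonneg_left h4 (by positivity))
          gcongr
      _ = _ := by
          have h7 : √C ^ 2 = C := Real.sq_sqrt hC.le
          rw [mul_pow (5 : ℝ) ε, mul_pow (2 : ℝ) h]
          have h8 : (5 : ℝ) ^ (2 * q) = (5 ^ q) ^ 2 := by rw [← pow_mul, mul_comm]
          have h9 : (ε : ℝ) ^ (2 * q) = (ε ^ q) ^ 2 := by rw [← pow_mul, mul_comm]
          rw [h8, h9]
          calc _ = C * (N * 5 ^ q * ε ^ q * 2 ^ ((2 * q) * (r + 1)) * h ^ ((2 * q) * (r + 1))) ^ 2 := by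
                ring
            _ = √C ^ 2 * (N * 5 ^ q * ε ^ q * 2 ^ ((2 * q) * (r + 1)) *
                h ^ ((2 * q) * (r + 1))) ^ 2 := by rw [h7]
            _ = _ := by ring
  exact le_of_sq_le_sq h5 (by positivity)

end Pool.Agent.V11270.PG
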