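import Mathlib
import Pool.Agent.V11270.PG.Net

set_option autoImplicit false

/-!
# No linear form in consecutive prime gaps is small on several windows in a row: all forms at once
-/

namespace Pool.Agent.V11270.PG

open Finset Filter
open Pool.Agent.H646 (P rat)
open Pool.Agent.H646.ChebM (P_le P_strictMono le_P long_few)

lemma gap_nonneg (n : ℕ) : (0 : ℝ) ≤ (P (n + 1) : ℝ) - P n := by
  have h : P n ≤ P (n + 1) := P_strictMono.monotone (by omega)
  have h' : (P n : ℝ) ≤ P (n + 1) := by exact_mod_cast h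
  linarith

lemma LL_diff {r : ℕ} (b c : Fin (r + 1) → ℝ) (δ : ℝ) (h : ∀ l, |b l - c l| ≤ δ)
    (m : ℕ) : |LL b m - LL c m| ≤ δ * ((P (m + (r + 1)) : ℝ) - P m) := by
  unfold LL
  rw [← Finset.sum_sub_distrib]
  have h1 : ∑ l : Fin (r + 1), ((P (m + l + 1) : ℝ) - P (m + l)) = (P (m + (r + 1)) : ℝ) - P m := by
    rw [Fin.sum_univ_eq_sum_range (fun l => (P (m + l + 1) : ℝ) - P (m + l)) (r + 1)]
    exact Finset.sum_range_sub (fun l => (P (m + l) : ℝ)) (r + 1)
  rw [← h1, Finset.mul_sum]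
  refine (Finset.abs_sum_le_sum_abs _ _).trans (Finset.sum_le_sum fun l _ => ?_)
  rw [← sub_mul, abs_mul, abs_of_nonneg (gap_nonneg (m + l))]
  exact mul_le_mul_of_nonneg_right (h l) (gap_nonneg (m + l))

open scoped Classical in
/-- **all forms at once** -/
theorem net (r : ℕ) (τ : ℝ) (hτ : 0 < τ) : ∃ ε : ℝ, 0 < ε ∧ ∃ q : ℕ, 1 ≤ q ∧
    ∀ᶠ N : ℕ in atTop, (#{n ∈ range N | ∃ b : Fin (r + 1) → ℝ, (∃ l, |b l| = 1) ∧
      (∀ l, |b l| ≤ 1) ∧ ∀ i < q, |LL b (n + (r + 1) * i)| ≤ ε * Real.log N} : ℝ) ≤ τ * N := by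
  obtain ⟨C, hC, hanti⟩ := anti r (r + 2)
  obtain ⟨C₀, hC₀, hP⟩ := P_le
  set k : ℕ := (2 * (r + 2)) * (r + 1) with hk
  have hk1 : 1 ≤ k := by
    rw [hk]
    exact Nat.mul_pos (by omega) (by omega)
  have hkr : (1 : ℝ) ≤ k := by exact_mod_cast hk1
  set h : ℝ := max 1 (8 * C₀ * k / τ) with hh
  have hh1 : 1 ≤ h := le_max_left _ _
  have hh2 : 8 * C₀ * k / τ ≤ h := le_max_right _ _
  set G : ℝ := (6 * h) ^ (r + 1) * C * h ^ k * 2 ^ (r + 2) with hG
  have hGpos : 0 < G := by positivity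
  set ε : ℝ := min (1 / 2) (τ / (2 * G)) with hε
  have hε0 : 0 < ε := lt_min (by norm_num) (by positivity)
  have hε2 : ε ≤ 1 / 2 := min_le_left _ _
  have hεG : G * ε ≤ τ / 2 := by
    have : ε ≤ τ / (2 * G) := min_le_right _ _
    rw [le_div_iff₀ (by positivity)] at this
    linarith
  obtain ⟨N₀, hN₀⟩ := hanti h hh1 (2 * ε) (by positivity) (by linarith)
  set M : ℕ := ⌈h / ε⌉₊ with hM
  have hM1 : h / ε ≤ M := Nat.le_ceil _
  have hM2 : (2 : ℝ) ≤ M := by
    refine le_trans ?_ hM1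
    rw [le_div_iff₀ hε0]
    linarith
  have hMpos : (0 : ℝ) < M := by linarith
  have hM3 : (M : ℝ) ≤ 2 * h / ε := by
    have h1 : (M : ℝ) < h / ε + 1 := Nat.ceil_lt_add_one (by positivity)
    have h2 : 1 ≤ h / ε := by
      rw [le_div_iff₀ hε0]
      linarith
    calc (M : ℝ) ≤ h / ε + h / ε := by linarith
      _ = 2 * h / ε := by ring
  refine ⟨ε, hε0, 2 * (r + 2), by omega, ?_⟩
  filter_upwards [eventually_ge_atTop N₀, eventually_ge_atTop (max 3 k)] with N hN hN'
  have hN3 : 3 ≤ N := (le_max_left _ _).trans hN'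
  have hkN : k ≤ N := (le_max_right _ _).trans hN'
  have hNpos : (0 : ℝ) < N := by
    have : 0 < N := by omega
    exact_mod_cast this
  have hT0 : 0 < Real.log N := Real.log_pos (by
    have : (3 : ℝ) ≤ N := by exact_mod_cast hN3
    linarith)
  set T : ℝ := Real.log N with hT
  set Long : Finset ℕ := {n ∈ range N | h / k * k * T < (P (n + k) : ℝ) - P n} with hLong
  set grid : Finset (Fin (r + 1) → ℤ) :=
    (Fintype.piFinset (fun _ : Fin (r + 1) => Finset.Icc (-(M : ℤ)) M)).filter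
      (fun c => ∃ l0, 1 / 2 ≤ |((c l0 : ℝ)) / M|) with hgrid
  set Sc : (Fin (r + 1) → ℤ) → Finset ℕ := fun c =>
    {n ∈ range N | (P (n + k) : ℝ) - P n ≤ h * T ∧
      ∀ i < 2 * (r + 2), |LL (fun l => (c l : ℝ) / M) (n + (r + 1) * i)| ≤ 2 * ε * T} with hSc
  have hcover : ({n ∈ range N | ∃ b : Fin (r + 1) → ℝ, (∃ l, |b l| = 1) ∧
      (∀ l, |b l| ≤ 1) ∧ ∀ i < 2 * (r + 2), |LL b (n + (r + 1) * i)| ≤ ε * T} : Finset ℕ) ⊆
      Long ∪ grid.biUnion Sc := by
    intro n hn
    rw [mem_filter] at hn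
    obtain ⟨hnN, b, ⟨l0, hl0⟩, hb, hLb⟩ := hn
    rw [mem_union]
    by_cases hs : (P (n + k) : ℝ) - P n ≤ h * T
    · right
      rw [mem_biUnion]
      have hfl : ∀ l, |b l - ((⌊b l * M⌋ : ℤ) : ℝ) / M| ≤ 1 / M := by
        intro l
        have h1 := Int.floor_le (b l * M)
        have h2 := Int.lt_floor_add_one (b l * M)
        rw [show b l - ((⌊b l * M⌋ : ℤ) : ℝ) / M = (b l * M - ((⌊b l * M⌋ : ℤ) : ℝ)) / M by
          field_simp, abs_div, abs_of_pos hMpos]
        apply div_le_div_of_nonneg_right _ hMpos.le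
        rw [abs_le]
        constructor <;> linarith
      refine ⟨fun l => ⌊b l * M⌋, ?_, ?_⟩
      · rw [hgrid, mem_filter, Fintype.mem_piFinset]
        refine ⟨?_, l0, ?_⟩
        · intro l
          have h1 := abs_le.1 (hb l)
          rw [Finset.mem_Icc]
          constructor
          · rw [Int.le_floor]
            push_cast
            nlinarith [h1.1]
          · have h2 : ((⌊b l * M⌋ : ℤ) : ℝ) ≤ M := (Int.floor_le _).trans (by nlinarith [h1.2])
            exact_mod_cast h2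
        · have h1 := hfl l0
          have h2 : 1 / (M : ℝ) ≤ 1 / 2 := one_div_le_one_div_of_le (by norm_num) hM2
          have h3 := abs_sub_abs_le_abs_sub (b l0) (((⌊b l0 * M⌋ : ℤ) : ℝ) / M)
          rw [hl0] at h3
          linarith
      · rw [hSc]
        simp only
        rw [mem_filter]
        refine ⟨hnN, hs, ?_⟩
        intro i hi
        have h1 := LL_diff b (fun l => ((⌊b l * M⌋ : ℤ) : ℝ) / M) (1 / M) hfl (n + (r + 1) * i)
        have h2 : (P (n + (r + 1) * i + (r + 1)) : ℝ) - P (n + (r + 1) * i) ≤ h * T := by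
          refine le_trans ?_ hs
          have h3 : P n ≤ P (n + (r + 1) * i) := P_strictMono.monotone (by omega)
          have h4 : P (n + (r + 1) * i + (r + 1)) ≤ P (n + k) := P_strictMono.monotone (by
            rw [hk]
            have : (r + 1) * (i + 1) ≤ (r + 1) * (2 * (r + 2)) := Nat.mul_le_mul_left _ (by omega)
            calc n + (r + 1) * i + (r + 1) = n + (r + 1) * (i + 1) := by ring
              _ ≤ n + (r + 1) * (2 * (r + 2)) := by omega
              _ = n + 2 * (r + 2) * (r + 1) := by ring)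
          have h3' : (P n : ℝ) ≤ P (n + (r + 1) * i) := by exact_mod_cast h3
          have h4' : (P (n + (r + 1) * i + (r + 1)) : ℝ) ≤ P (n + k) := by exact_mod_cast h4
          linarith
        have h5 : 1 / (M : ℝ) * (h * T) ≤ ε * T := by
          have h6 : h ≤ M * ε := by
            rw [div_le_iff₀ hε0] at hM1
            exact hM1
          rw [one_div_mul_eq_div, div_le_iff₀ hMpos]
          nlinarith
        have h7 : |LL b (n + (r + 1) * i) - LL (fun l => ((⌊b l * M⌋ : ℤ) : ℝ) / M)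
            (n + (r + 1) * i)| ≤ ε * T :=
          h1.trans ((mul_le_mul_of_nonneg_left h2 (by positivity)).trans h5)
        have h8 := hLb i hi
        rw [abs_le] at h7 h8 ⊢
        constructor <;> linarith [h7.1, h7.2, h8.1, h8.2]
    · left
      rw [hLong, mem_filter]
      refine ⟨hnN, ?_⟩
      rw [div_mul_cancel₀ _ (by positivity)]
      exact not_le.1 hs
  have hlong : (#Long : ℝ) ≤ τ / 2 * N := by
    have h1 := long_few (h / k) (by positivity) C₀ hC₀ hP N k (by omega) hk1 hkN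
    refine h1.trans (mul_le_mul_of_nonneg_right ?_ hNpos.le)
    rw [div_le_iff₀ (by positivity)]
    rw [div_le_iff₀ hτ] at hh2
    have h2 : τ / 2 * (h / k) = (h * τ) / (2 * k) := by ring
    rw [h2, le_div_iff₀ (by positivity)]
    linarith
  have hScb : ∀ c ∈ grid, (#(Sc c) : ℝ) ≤ C * h ^ k * (2 * ε) ^ (r + 2) * N := by
    intro c hc
    exact hN₀ N hN (fun l => (c l : ℝ) / M) (mem_filter.1 hc).2
  have hgc : ((grid).card : ℝ) ≤ (6 * h / ε) ^ (r + 1) := by
    have h1 : (grid).card ≤ (2 * M + 1) ^ (r + 1) := by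
      refine (Finset.card_filter_le _ _).trans ?_
      rw [Fintype.card_piFinset, Finset.prod_const, Int.card_Icc, Finset.card_univ, Fintype.card_fin]
      apply Nat.pow_le_pow_left
      omega
    calc ((grid).card : ℝ) ≤ (((2 * M + 1) ^ (r + 1) : ℕ) : ℝ) := by exact_mod_cast h1
      _ = (2 * (M : ℝ) + 1) ^ (r + 1) := by push_cast; rfl
      _ ≤ (6 * h / ε) ^ (r + 1) := by
          apply pow_le_pow_left₀ (by positivity)
          have : 6 * h / ε = 3 * (2 * h / ε) := by ring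
          rw [this]
          linarith
  have hunion : (#({n ∈ range N | ∃ b : Fin (r + 1) → ℝ, (∃ l, |b l| = 1) ∧
      (∀ l, |b l| ≤ 1) ∧ ∀ i < 2 * (r + 2), |LL b (n + (r + 1) * i)| ≤ ε * T} : Finset ℕ) : ℝ) ≤
      #Long + ∑ c ∈ grid, (#(Sc c) : ℝ) := by
    have h1 := (Finset.card_le_card hcover).trans (Finset.card_union_le _ _)
    have h2 : #(grid.biUnion Sc) ≤ ∑ c ∈ grid, #(Sc c) := Finset.card_biUnion_le
    exact_mod_cast h1.trans (by omega)
  refine hunion.trans ?_
  have h1 : ∑ c ∈ grid, (#(Sc c) : ℝ) ≤ τ / 2 * N := by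
    calc ∑ c ∈ grid, (#(Sc c) : ℝ) ≤ ∑ _c ∈ grid, C * h ^ k * (2 * ε) ^ (r + 2) * N :=
          Finset.sum_le_sum hScb
      _ = (grid).card * (C * h ^ k * (2 * ε) ^ (r + 2) * N) := by rw [Finset.sum_const, nsmul_eq_mul]
      _ ≤ (6 * h / ε) ^ (r + 1) * (C * h ^ k * (2 * ε) ^ (r + 2) * N) := by gcongr
      _ = G * ε * N := by
          rw [hG, div_pow, mul_pow 2 ε, pow_succ ε (r + 1)]
          field_simp
      _ ≤ τ / 2 * N := by gcongr
  linarith

end Pool.Agent.V11270.PG
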