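import Mathlib
import Pool.Agent.V11270.PG.NetB

set_option autoImplicit false

/-!
# Linear forms with zero sum in consecutive prime gaps take both signs in almost every block
-/

namespace Pool.Agent.V11270.PG

open Finset Filter
open Pool.Agent.H646 (P rat)
open Pool.Agent.H646.ChebM (P_le P_strictMono le_P long_few)
open scoped Classical

lemma card_shift (A : ℕ → Prop) (a N : ℕ) :
    #{n ∈ range N | A (n + a)} ≤ #{m ∈ range N | A m} + a := by
  have h1 : #{n ∈ range N | A (n + a)} ≤ #{m ∈ range (N + a) | A m} := by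
    apply Finset.card_le_card_of_injOn (fun n => n + a)
    · intro n hn
      rw [mem_coe, mem_filter, mem_range] at hn
      rw [mem_coe, mem_filter, mem_range]
      refine ⟨?_, hn.2⟩
      show n + a < N + a
      omega
    · intro x _ y _ hxy
      have : x + a = y + a := hxy
      omega
  refine h1.trans ?_
  have h2 : ({m ∈ range (N + a) | A m} : Finset ℕ) ⊆ ({m ∈ range N | A m} : Finset ℕ) ∪ Ico N (N + a) := by
    intro m hm
    rw [mem_filter, mem_range] at hm
    rw [mem_union, mem_filter, mem_range, mem_Ico]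
    rcases lt_or_ge m N with h | h
    · exact Or.inl ⟨h, hm.2⟩
    · exact Or.inr ⟨h, hm.1⟩
  refine (Finset.card_le_card h2).trans ((Finset.card_union_le _ _).trans ?_)
  rw [Nat.card_Ico]
  omega

lemma sum_blocks (f : ℕ → ℝ) (s K : ℕ) :
    ∑ i ∈ range (s * K), f i = ∑ t ∈ range K, ∑ j ∈ range s, f (s * t + j) := by
  induction K with
  | zero => simp
  | succ K ih =>
    rw [Finset.sum_range_succ, ← ih, Nat.mul_succ, Finset.sum_range_add]

/-- sums of the form over a block are short -/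
lemma sum_LL {r : ℕ} (b : Fin (r + 1) → ℝ) (hb0 : ∑ l, b l = 0) (hb : ∀ l, |b l| ≤ 1) (n K : ℕ)
    (E : ℝ) (h1 : (P (n + (r + 1)) : ℝ) - P n ≤ E) (h2 : (P (n + K + (r + 1)) : ℝ) - P (n + K) ≤ E) :
    |∑ i ∈ range K, LL b (n + i)| ≤ 2 * (r + 1) * E := by
  have e1 : ∑ i ∈ range K, LL b (n + i) =
      ∑ l : Fin (r + 1), b l * ((P (n + K + l) : ℝ) - P (n + l)) := by
    unfold LL
    rw [Finset.sum_comm]
    refine Finset.sum_congr rfl fun l _ => ?_
    rw [← Finset.mul_sum]
    congr 1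
    have h3 := Finset.sum_range_sub (fun i => (P (n + i + l) : ℝ)) K
    rw [add_zero] at h3
    rw [← h3]
    refine Finset.sum_congr rfl fun i _ => ?_
    rw [show n + (i + 1) + (l : ℕ) = n + i + l + 1 by ring]
  have e2 : ∑ l : Fin (r + 1), b l * ((P (n + K + l) : ℝ) - P (n + l)) =
      ∑ l : Fin (r + 1), b l * (((P (n + K + l) : ℝ) - P (n + K)) - ((P (n + l) : ℝ) - P n)) := by
    have h3 : ∑ l : Fin (r + 1), b l * ((P (n + K + l) : ℝ) - P (n + l)) -
        ∑ l : Fin (r + 1), b l * (((P (n + K + l) : ℝ) - P (n + K)) - ((P (n + l) : ℝ) - P n)) =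
        (∑ l : Fin (r + 1), b l) * ((P (n + K) : ℝ) - P n) := by
      rw [← Finset.sum_sub_distrib, Finset.sum_mul]
      refine Finset.sum_congr rfl fun l _ => ?_
      ring
    rw [hb0, zero_mul] at h3
    linarith
  rw [e1, e2]
  have hmono : ∀ a c : ℕ, a ≤ c → (P a : ℝ) ≤ P c := fun a c hac => by
    exact_mod_cast P_strictMono.monotone hac
  calc |∑ l : Fin (r + 1), b l * (((P (n + K + l) : ℝ) - P (n + K)) - ((P (n + l) : ℝ) - P n))|
      ≤ ∑ l : Fin (r + 1), |b l * (((P (n + K + l) : ℝ) - P (n + K)) - ((P (n + l) : ℝ) - P n))| :=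
        Finset.abs_sum_le_sum_abs _ _
    _ ≤ ∑ _l : Fin (r + 1), 2 * E := by
        refine Finset.sum_le_sum fun l _ => ?_
        rw [abs_mul]
        have h3 : 0 ≤ (P (n + K + l) : ℝ) - P (n + K) := sub_nonneg.2 (hmono _ _ (by omega))
        have h4 : 0 ≤ (P (n + l) : ℝ) - P n := sub_nonneg.2 (hmono _ _ (by omega))
        have h5 : (P (n + K + l) : ℝ) ≤ P (n + K + (r + 1)) := hmono _ _ (by
          have := l.2
          omega)
        have h6 : (P (n + l) : ℝ) ≤ P (n + (r + 1)) := hmono _ _ (by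
          have := l.2
          omega)
        have h7 : |((P (n + K + l) : ℝ) - P (n + K)) - ((P (n + l) : ℝ) - P n)| ≤ 2 * E := by
          rw [abs_le]
          constructor <;> linarith
        calc |b l| * |((P (n + K + l) : ℝ) - P (n + K)) - ((P (n + l) : ℝ) - P n)|
            ≤ 1 * (2 * E) := mul_le_mul (hb l) h7 (abs_nonneg _) zero_le_one
          _ = 2 * E := one_mul _
    _ = 2 * (r + 1) * E := by
        rw [Finset.sum_const, Finset.card_univ, Fintype.card_fin, nsmul_eq_mul]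
        push_cast
        ring

/-- **blocks** -/
theorem blocks (r : ℕ) (τ : ℝ) (hτ : 0 < τ) : ∃ K : ℕ, ∃ c : ℝ, 0 < c ∧ ∀ᶠ N : ℕ in atTop,
    (#{n ∈ range N | ∃ b : Fin (r + 1) → ℝ, ∑ l, b l = 0 ∧ (∃ l, |b l| = 1) ∧ (∀ l, |b l| ≤ 1) ∧
      ∀ i < K, LL b (n + i) ≤ c * Real.log N} : ℝ) ≤ τ * N := by
  obtain ⟨ε, hε, q, hq, hnet⟩ := net r (τ / 8) (by positivity)
  obtain ⟨C₀, hC₀, hP⟩ := P_le
  have hC₀pos : 0 < C₀ := by linarith
  set B : ℝ := 32 * C₀ * (r + 1) / τ with hB
  have hBpos : 0 < B := by positivity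
  obtain ⟨K₁, hK₁⟩ := exists_nat_ge (16 * (r + 1) * B / ε)
  have hK₁pos : (0 : ℝ) < K₁ := lt_of_lt_of_le (by positivity) hK₁
  rw [div_le_iff₀ hε] at hK₁
  set s : ℕ := (r + 1) * q with hs
  have hs1 : 1 ≤ s := Nat.mul_pos (by omega) (by omega)
  have hspos : (0 : ℝ) < s := by exact_mod_cast hs1
  set K : ℕ := s * K₁ with hK
  refine ⟨K, ε / (16 * s), by positivity, ?_⟩
  filter_upwards [hnet, eventually_ge_atTop (max 3 (r + 1)), eventually_ge_atTop ⌈6 * K / τ⌉₊]
    with N hN1 hN2 hN3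
  have hN2a : 3 ≤ N := (le_max_left _ _).trans hN2
  have hN2b : r + 1 ≤ N := (le_max_right _ _).trans hN2
  have hNr : (3 : ℝ) ≤ N := by exact_mod_cast hN2a
  have hNpos : (0 : ℝ) < N := by linarith
  have hT0 : 0 < Real.log N := Real.log_pos (by linarith)
  set T : ℝ := Real.log N with hT
  have hN3' : 6 * K ≤ τ * N := by
    have : 6 * K / τ ≤ N := (Nat.le_ceil _).trans (by exact_mod_cast hN3)
    rw [div_le_iff₀ hτ] at this
    linarith
  set Bd : ℕ → Prop := fun n => ∃ b : Fin (r + 1) → ℝ, (∃ l, |b l| = 1) ∧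
      (∀ l, |b l| ≤ 1) ∧ ∀ i < q, |LL b (n + (r + 1) * i)| ≤ ε * T with hBd
  set Lg : ℕ → Prop := fun n => B / ((r + 1 : ℕ) : ℝ) * ((r + 1 : ℕ) : ℝ) * T <
      (P (n + (r + 1)) : ℝ) - P n with hLg
  have hBdc : (#{n ∈ range N | Bd n} : ℝ) ≤ τ / 8 * N := hN1
  have hLgc : (#{n ∈ range N | Lg n} : ℝ) ≤ τ / 8 * N := by
    have h1 := long_few (B / ((r + 1 : ℕ) : ℝ)) (by positivity) C₀ hC₀ hP N (r + 1) (by omega)
      (by omega) hN2b
    refine h1.trans (le_of_eq ?_)
    congr 1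
    rw [hB]
    push_cast
    field_simp
    norm_num
  have hcover : ({n ∈ range N | ∃ b : Fin (r + 1) → ℝ, ∑ l, b l = 0 ∧ (∃ l, |b l| = 1) ∧
      (∀ l, |b l| ≤ 1) ∧ ∀ i < K, LL b (n + i) ≤ ε / (16 * s) * T} : Finset ℕ) ⊆
      ({n ∈ range N | Lg n} : Finset ℕ) ∪ (({n ∈ range N | Lg (n + K)} : Finset ℕ) ∪
        ({n ∈ range N | K₁ ≤ 2 * #{t ∈ range K₁ | Bd (n + s * t)}} : Finset ℕ)) := by
    intro n hn
    rw [mem_filter] at hn
    obtain ⟨hnN, b, hb0, hb1, hb, hLb⟩ := hn
    rw [mem_union, mem_union, mem_filter, mem_filter, mem_filter]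
    by_contra hcon
    push Not at hcon
    obtain ⟨g1, g2, g3⟩ := hcon
    have g1 := g1 hnN
    have g2 := g2 hnN
    have g3 := g3 hnN
    have hBT : B / ((r + 1 : ℕ) : ℝ) * ((r + 1 : ℕ) : ℝ) * T = B * T := by
      rw [div_mul_cancel₀ _ (by positivity)]
    have g1' : (P (n + (r + 1)) : ℝ) - P n ≤ B * T := by
      rw [← hBT]
      exact not_lt.1 g1
    have g2' : (P (n + K + (r + 1)) : ℝ) - P (n + K) ≤ B * T := by
      rw [← hBT]
      exact not_lt.1 g2
    have h1 := sum_LL b hb0 hb n K (B * T) g1' g2'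
    have h2 : ∑ i ∈ range K, |LL b (n + i)| ≤ 2 * (ε / (16 * s) * T) * K + 2 * (r + 1) * (B * T) := by
      have h3 : ∑ i ∈ range K, |LL b (n + i)| ≤
          ∑ i ∈ range K, (2 * (ε / (16 * s) * T) - LL b (n + i)) := by
        refine Finset.sum_le_sum fun i hi => ?_
        have h4 := hLb i (mem_range.1 hi)
        have h5 : 0 ≤ ε / (16 * s) * T := by positivity
        rw [abs_le]
        constructor <;> linarith
      rw [Finset.sum_sub_distrib, Finset.sum_const, Finset.card_range, nsmul_eq_mul] at h3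
      have h6 := neg_abs_le (∑ i ∈ range K, LL b (n + i))
      linarith
    have h3 : (K₁ : ℝ) / 2 * (ε * T) ≤ ∑ i ∈ range K, |LL b (n + i)| := by
      rw [hK, sum_blocks (fun i => |LL b (n + i)|) s K₁]
      have h4 : ∀ t ∈ range K₁, (if Bd (n + s * t) then (0 : ℝ) else ε * T) ≤
          ∑ j ∈ range s, |LL b (n + (s * t + j))| := by
        intro t _
        split_ifs with hbt
        · exact Finset.sum_nonneg fun j _ => abs_nonneg _
        · have h5 : ∃ i < q, ε * T < |LL b (n + s * t + (r + 1) * i)| := by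
            by_contra h6
            push Not at h6
            exact hbt ⟨b, hb1, hb, h6⟩
          obtain ⟨i, hi, h6⟩ := h5
          have h7 : (r + 1) * i < s := by
            rw [hs]
            exact Nat.mul_lt_mul_of_pos_left hi (by omega)
          have h8 := Finset.single_le_sum (f := fun j => |LL b (n + (s * t + j))|)
            (fun j _ => abs_nonneg _) (mem_range.2 h7)
          have h9 : n + s * t + (r + 1) * i = n + (s * t + (r + 1) * i) := by ring
          rw [h9] at h6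
          exact h6.le.trans h8
      refine le_trans ?_ (Finset.sum_le_sum h4)
      rw [Finset.sum_ite, Finset.sum_const_zero, zero_add, Finset.sum_const, nsmul_eq_mul]
      apply mul_le_mul_of_nonneg_right _ (by positivity)
      have h5 := Finset.card_filter_add_card_filter_not (s := range K₁) (fun t => Bd (n + s * t))
      rw [Finset.card_range] at h5
      have h6 : (K₁ : ℝ) = (#{t ∈ range K₁ | Bd (n + s * t)} : ℝ) +
          (#{t ∈ range K₁ | ¬ Bd (n + s * t)} : ℝ) := by exact_mod_cast h5.symm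
      have h7 : 2 * (#{t ∈ range K₁ | Bd (n + s * t)} : ℝ) ≤ K₁ := by exact_mod_cast g3.le
      linarith
    have h4 : 2 * (ε / (16 * s) * T) * K = K₁ / 8 * (ε * T) := by
      rw [hK]
      push_cast
      field_simp
      norm_num
    have h5 : 2 * ((r : ℝ) + 1) * (B * T) ≤ K₁ / 8 * (ε * T) := by
      have := mul_le_mul_of_nonneg_right hK₁ hT0.le
      nlinarith
    have h6 : 0 < (K₁ : ℝ) * (ε * T) := by positivity
    rw [h4] at h2
    linarith
  have hL2 : (#{n ∈ range N | Lg (n + K)} : ℝ) ≤ τ / 8 * N + K := by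
    have h1 : (#{n ∈ range N | Lg (n + K)} : ℝ) ≤ (#{n ∈ range N | Lg n} : ℝ) + K := by
      exact_mod_cast card_shift Lg K N
    linarith
  have hM : (#{n ∈ range N | K₁ ≤ 2 * #{t ∈ range K₁ | Bd (n + s * t)}} : ℝ) ≤ τ / 4 * N + 2 * K := by
    have h1 : (#{n ∈ range N | K₁ ≤ 2 * #{t ∈ range K₁ | Bd (n + s * t)}} : ℝ) * K₁ ≤
        ∑ n ∈ range N, 2 * (#{t ∈ range K₁ | Bd (n + s * t)} : ℝ) := by
      rw [← nsmul_eq_mul]
      calc _ ≤ ∑ n ∈ range N with K₁ ≤ 2 * #{t ∈ range K₁ | Bd (n + s * t)},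
            2 * (#{t ∈ range K₁ | Bd (n + s * t)} : ℝ) := by
            apply Finset.card_nsmul_le_sum
            intro n hn
            exact_mod_cast (mem_filter.1 hn).2
        _ ≤ _ := Finset.sum_le_sum_of_subset_of_nonneg (Finset.filter_subset _ _)
            fun n _ _ => by positivity
    have h2 : ∑ n ∈ range N, 2 * (#{t ∈ range K₁ | Bd (n + s * t)} : ℝ) =
        2 * ∑ t ∈ range K₁, (#{n ∈ range N | Bd (n + s * t)} : ℝ) := by
      rw [← Finset.mul_sum]
      congr 1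
      have h3 : ∀ n ∈ range N, (#{t ∈ range K₁ | Bd (n + s * t)} : ℝ) =
          ∑ t ∈ range K₁, if Bd (n + s * t) then (1 : ℝ) else 0 := by
        intro n _
        rw [Finset.sum_boole]
      have h4 : ∀ t ∈ range K₁, (#{n ∈ range N | Bd (n + s * t)} : ℝ) =
          ∑ n ∈ range N, if Bd (n + s * t) then (1 : ℝ) else 0 := by
        intro t _
        rw [Finset.sum_boole]
      rw [Finset.sum_congr rfl h3, Finset.sum_congr rfl h4, Finset.sum_comm]
    have h3 : ∑ t ∈ range K₁, (#{n ∈ range N | Bd (n + s * t)} : ℝ) ≤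
        ∑ _t ∈ range K₁, (τ / 8 * N + K) := by
      refine Finset.sum_le_sum fun t ht => ?_
      have h4 : (#{n ∈ range N | Bd (n + s * t)} : ℝ) ≤ (#{n ∈ range N | Bd n} : ℝ) + (s * t : ℕ) := by
        exact_mod_cast card_shift Bd (s * t) N
      have h5 : ((s * t : ℕ) : ℝ) ≤ K := by
        have : s * t ≤ K := by
          rw [hK]
          exact Nat.mul_le_mul_left _ (mem_range.1 ht).le
        exact_mod_cast this
      linarith
    rw [Finset.sum_const, Finset.card_range, nsmul_eq_mul] at h3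
    rw [h2] at h1
    have h4 : (#{n ∈ range N | K₁ ≤ 2 * #{t ∈ range K₁ | Bd (n + s * t)}} : ℝ) * K₁ ≤
        (τ / 4 * N + 2 * K) * K₁ := by
      refine h1.trans ?_
      calc 2 * ∑ t ∈ range K₁, (#{n ∈ range N | Bd (n + s * t)} : ℝ) ≤ 2 * (K₁ * (τ / 8 * N + K)) := by
            linarith
        _ = _ := by ring
    exact le_of_mul_le_mul_right h4 hK₁pos
  have hfin : (#({n ∈ range N | ∃ b : Fin (r + 1) → ℝ, ∑ l, b l = 0 ∧ (∃ l, |b l| = 1) ∧
      (∀ l, |b l| ≤ 1) ∧ ∀ i < K, LL b (n + i) ≤ ε / (16 * s) * T} : Finset ℕ) : ℝ) ≤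
      (#{n ∈ range N | Lg n} : ℝ) + ((#{n ∈ range N | Lg (n + K)} : ℝ) +
        (#{n ∈ range N | K₁ ≤ 2 * #{t ∈ range K₁ | Bd (n + s * t)}} : ℝ)) := by
    have h1 := Finset.card_le_card hcover
    have h2 := Finset.card_union_le ({n ∈ range N | Lg n} : Finset ℕ)
      (({n ∈ range N | Lg (n + K)} : Finset ℕ) ∪
        ({n ∈ range N | K₁ ≤ 2 * #{t ∈ range K₁ | Bd (n + s * t)}} : Finset ℕ))
    have h3 := Finset.card_union_le ({n ∈ range N | Lg (n + K)} : Finset ℕ)
        ({n ∈ range N | K₁ ≤ 2 * #{t ∈ range K₁ | Bd (n + s * t)}} : Finset ℕ)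
    exact_mod_cast h1.trans (by omega)
  linarith

end Pool.Agent.V11270.PG
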