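import Mathlib
import Pool.Agent.V11270.PG.Blocks

set_option autoImplicit false

/-!
# Final form of the results on linear forms in consecutive prime gaps
-/

namespace Pool.Agent.V11270.PG

open Finset Filter
open Pool.Agent.H646 (P rat)
open scoped Classical

/-- the gap after the prime of index `n`, primes indexed from `0` -/
noncomputable def d (n : ℕ) : ℝ := (Nat.nth Nat.Prime (n + 1) : ℝ) - Nat.nth Nat.Prime n

lemma LL_eq {r : ℕ} (b : Fin (r + 1) → ℝ) (n : ℕ) : LL b n = ∑ l : Fin (r + 1), b l * d (n + l) := rfl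

lemma ncard_eq (A : ℕ → Prop) (N : ℕ) : {n : ℕ | n < N ∧ A n}.ncard = #{n ∈ range N | A n} := by
  rw [← Set.ncard_coe_finset]
  congr 1
  ext n
  simp

theorem blocks_final (r : ℕ) (τ : ℝ) (hτ : 0 < τ) : ∃ K : ℕ, ∃ c : ℝ, 0 < c ∧
    ∀ᶠ N : ℕ in atTop, ({n : ℕ | n < N ∧ ¬ ∀ b : Fin (r + 1) → ℝ, ∑ l, b l = 0 → b ≠ 0 →
      ∃ i < K, ∃ j < K, c * ‖b‖ * Real.log N < ∑ l, b l * d (n + i + l) ∧
        ∑ l, b l * d (n + j + l) < -(c * ‖b‖ * Real.log N)}.ncard : ℝ) ≤ τ * N := by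
  obtain ⟨K, c, hc, h⟩ := blocks r τ hτ
  refine ⟨K, c, hc, ?_⟩
  filter_upwards [h] with N hN
  rw [ncard_eq]
  refine le_trans ?_ hN
  have h1 : ({n ∈ range N | ¬ ∀ b : Fin (r + 1) → ℝ, ∑ l, b l = 0 → b ≠ 0 →
      ∃ i < K, ∃ j < K, c * ‖b‖ * Real.log N < ∑ l, b l * d (n + i + l) ∧
        ∑ l, b l * d (n + j + l) < -(c * ‖b‖ * Real.log N)} : Finset ℕ) ⊆
      ({n ∈ range N | ∃ b : Fin (r + 1) → ℝ, ∑ l, b l = 0 ∧ (∃ l, |b l| = 1) ∧ (∀ l, |b l| ≤ 1) ∧
        ∀ i < K, LL b (n + i) ≤ c * Real.log N} : Finset ℕ) := by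
    intro n hn
    rw [mem_filter] at hn ⊢
    refine ⟨hn.1, ?_⟩
    by_contra hcon
    push Not at hcon
    apply hn.2
    intro b hb hb0
    have hnb : 0 < ‖b‖ := norm_pos_iff.2 hb0
    have key : ∀ a : Fin (r + 1) → ℝ, ∑ l, a l = 0 → ‖a‖ = ‖b‖ →
        ∃ i < K, c * ‖b‖ * Real.log N < ∑ l, a l * d (n + i + l) := by
      intro a ha hab
      have h2 : ∃ l, |a l| = ‖b‖ := by
        by_contra h3
        push Not at h3
        have h4 : ‖a‖ < ‖b‖ := by
          rw [pi_norm_lt_iff hnb]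
          intro l
          refine lt_of_le_of_ne ?_ (by rw [Real.norm_eq_abs]; exact h3 l)
          rw [← hab]
          exact norm_le_pi_norm a l
        linarith
      obtain ⟨l0, hl0⟩ := h2
      obtain ⟨i, hi, h5⟩ := hcon (fun l => a l / ‖b‖) (by rw [← Finset.sum_div, ha, zero_div])
        ⟨l0, by rw [abs_div, hl0, abs_of_pos hnb, div_self hnb.ne']⟩ (by
          intro l
          rw [abs_div, abs_of_pos hnb, div_le_one hnb, ← hab]
          exact norm_le_pi_norm a l)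
      refine ⟨i, hi, ?_⟩
      rw [LL_eq] at h5
      have h6 : ∑ l : Fin (r + 1), a l / ‖b‖ * d (n + i + l) =
          (∑ l : Fin (r + 1), a l * d (n + i + l)) / ‖b‖ := by
        rw [Finset.sum_div]
        refine Finset.sum_congr rfl fun l _ => ?_
        ring
      rw [h6, lt_div_iff₀ hnb] at h5
      linarith
    obtain ⟨i, hi, h2⟩ := key b hb rfl
    obtain ⟨j, hj, h3⟩ := key (fun l => - b l) (by rw [Finset.sum_neg_distrib, hb, neg_zero])
      (norm_neg b)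
    refine ⟨i, hi, j, hj, h2, ?_⟩
    have h4 : ∑ l : Fin (r + 1), - b l * d (n + j + l) = - ∑ l : Fin (r + 1), b l * d (n + j + l) := by
      rw [← Finset.sum_neg_distrib]
      refine Finset.sum_congr rfl fun l _ => ?_
      ring
    rw [h4] at h3
    linarith
  exact_mod_cast Finset.card_le_card h1

theorem pos_final (r : ℕ) (b : Fin (r + 1) → ℝ) (hb : ∑ l, b l = 0) (hb0 : b ≠ 0) :
    ∃ c : ℝ, 0 < c ∧ ∃ p : ℝ, 0 < p ∧ ∀ᶠ N : ℕ in atTop,
      p * N ≤ ({n : ℕ | n < N ∧ c * Real.log N < ∑ l, b l * d (n + l)}.ncard : ℝ) ∧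
      p * N ≤ ({n : ℕ | n < N ∧ ∑ l, b l * d (n + l) < -(c * Real.log N)}.ncard : ℝ) := by
  obtain ⟨K, c, hc, h⟩ := blocks_final r (1 / 2) (by norm_num)
  have hnb : 0 < ‖b‖ := norm_pos_iff.2 hb0
  refine ⟨c * ‖b‖, by positivity, 1 / (4 * (K + 1)), by positivity, ?_⟩
  filter_upwards [h, eventually_ge_atTop (4 * (K + 1) * (K + 1))] with N hN hN2
  have hN2' : 4 * ((K : ℝ) + 1) * (K + 1) ≤ N := by exact_mod_cast hN2
  have key : ∀ A : ℕ → Prop, (∀ n, n ∉ {n : ℕ | n < N ∧ ¬ ∀ b : Fin (r + 1) → ℝ, ∑ l, b l = 0 →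
      b ≠ 0 → ∃ i < K, ∃ j < K, c * ‖b‖ * Real.log N < ∑ l, b l * d (n + i + l) ∧
        ∑ l, b l * d (n + j + l) < -(c * ‖b‖ * Real.log N)} → n < N → ∃ i < K, A (n + i)) →
      1 / (4 * ((K : ℝ) + 1)) * N ≤ ({n : ℕ | n < N ∧ A n}.ncard : ℝ) := by
    intro A hA
    set S : Set ℕ := {n : ℕ | n < N ∧ ¬ ∀ b : Fin (r + 1) → ℝ, ∑ l, b l = 0 →
      b ≠ 0 → ∃ i < K, ∃ j < K, c * ‖b‖ * Real.log N < ∑ l, b l * d (n + i + l) ∧
        ∑ l, b l * d (n + j + l) < -(c * ‖b‖ * Real.log N)} with hS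
    have h1 : range N ⊆ ({n ∈ range N | n ∈ S} : Finset ℕ) ∪
        (range K).biUnion (fun i => {n ∈ range N | A (n + i)}) := by
      intro n hn
      rw [mem_union, mem_filter, mem_biUnion]
      by_cases hnS : n ∈ S
      · exact Or.inl ⟨hn, hnS⟩
      · right
        obtain ⟨i, hi, h2⟩ := hA n hnS (mem_range.1 hn)
        exact ⟨i, mem_range.2 hi, mem_filter.2 ⟨hn, h2⟩⟩
    have h2 : #({n ∈ range N | n ∈ S} : Finset ℕ) = S.ncard := by
      rw [← Set.ncard_coe_finset]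
      congr 1
      ext n
      simp only [coe_filter, mem_range, Set.mem_ofPred_eq]
      constructor
      · rintro ⟨-, h3⟩
        exact h3
      · intro h3
        exact ⟨h3.1, h3⟩
    have h3 : N ≤ S.ncard + ∑ i ∈ range K, (#({n ∈ range N | A n} : Finset ℕ) + K) := by
      calc N = #(range N) := (Finset.card_range N).symm
        _ ≤ _ := (Finset.card_le_card h1).trans (Finset.card_union_le _ _)
        _ ≤ S.ncard + ∑ i ∈ range K, (#({n ∈ range N | A n} : Finset ℕ) + K) := by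
            rw [h2]
            apply Nat.add_le_add_left
            refine Finset.card_biUnion_le.trans (Finset.sum_le_sum fun i hi => ?_)
            have h4 := card_shift A i N
            have h5 := mem_range.1 hi
            omega
    rw [Finset.sum_const, Finset.card_range, smul_eq_mul] at h3
    rw [ncard_eq]
    have h4 : (N : ℝ) ≤ S.ncard + K * ((#({n ∈ range N | A n} : Finset ℕ) : ℝ) + K) := by
      exact_mod_cast h3
    have h5 : (S.ncard : ℝ) ≤ 1 / 2 * N := hN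
    set x : ℝ := (#({n ∈ range N | A n} : Finset ℕ) : ℝ) with hx
    have hx0 : 0 ≤ x := Nat.cast_nonneg _
    have hKr : (0 : ℝ) ≤ K := Nat.cast_nonneg _
    rw [one_div_mul_eq_div, div_le_iff₀ (by positivity)]
    nlinarith
  constructor
  · apply key (fun n => c * ‖b‖ * Real.log N < ∑ l, b l * d (n + l))
    intro n hn hnN
    have h1 : ∀ b : Fin (r + 1) → ℝ, ∑ l, b l = 0 →
      b ≠ 0 → ∃ i < K, ∃ j < K, c * ‖b‖ * Real.log N < ∑ l, b l * d (n + i + l) ∧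
        ∑ l, b l * d (n + j + l) < -(c * ‖b‖ * Real.log N) := by
      by_contra h2
      exact hn ⟨hnN, h2⟩
    obtain ⟨i, hi, j, hj, h2, h3⟩ := h1 b hb hb0
    exact ⟨i, hi, h2⟩
  · apply key (fun n => ∑ l, b l * d (n + l) < -(c * ‖b‖ * Real.log N))
    intro n hn hnN
    have h1 : ∀ b : Fin (r + 1) → ℝ, ∑ l, b l = 0 →
      b ≠ 0 → ∃ i < K, ∃ j < K, c * ‖b‖ * Real.log N < ∑ l, b l * d (n + i + l) ∧
        ∑ l, b l * d (n + j + l) < -(c * ‖b‖ * Real.log N) := by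
      by_contra h2
      exact hn ⟨hnN, h2⟩
    obtain ⟨i, hi, j, hj, h2, h3⟩ := h1 b hb hb0
    exact ⟨j, hj, h3⟩

theorem diff_final (m : ℕ) (hm : 2 ≤ m) :
    ∃ c : ℝ, 0 < c ∧ ∃ p : ℝ, 0 < p ∧ ∀ᶠ N : ℕ in atTop,
      p * N ≤ ({n : ℕ | n < N ∧
        c * Real.log N < (fwdDiff 1)^[m] (fun n : ℕ => (Nat.nth Nat.Prime n : ℝ)) n}.ncard : ℝ) ∧
      p * N ≤ ({n : ℕ | n < N ∧
        (fwdDiff 1)^[m] (fun n : ℕ => (Nat.nth Nat.Prime n : ℝ)) n < -(c * Real.log N)}.ncard : ℝ) := by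
  obtain ⟨r, rfl⟩ : ∃ r, m = r + 1 := ⟨m - 1, by omega⟩
  have hr : 1 ≤ r := by omega
  have e0 : fwdDiff 1 (fun n : ℕ => (Nat.nth Nat.Prime n : ℝ)) = d := by
    funext n
    rfl
  have e1 : ∀ (f : ℕ → ℝ) (n : ℕ), (fwdDiff 1)^[r] f n =
      ∑ l : Fin (r + 1), ((-1 : ℝ) ^ (r - (l : ℕ)) * (r.choose l : ℝ)) * f (n + l) := by
    intro f n
    rw [fwdDiff_iter_eq_sum_shift, Fin.sum_univ_eq_sum_range
      (fun l => ((-1 : ℝ) ^ (r - l) * (r.choose l : ℝ)) * f (n + l)) (r + 1)]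
    refine Finset.sum_congr rfl fun l _ => ?_
    rw [zsmul_eq_mul, smul_eq_mul, mul_one]
    push_cast
    rfl
  have hsum : ∑ l : Fin (r + 1), ((-1 : ℝ) ^ (r - (l : ℕ)) * (r.choose l : ℝ)) = 0 := by
    have h1 := e1 (fun _ => (1 : ℝ)) 0
    have h2 : (fwdDiff 1)^[r] (fun _ : ℕ => (1 : ℝ)) 0 = 0 := by
      obtain ⟨s, rfl⟩ : ∃ s, r = s + 1 := ⟨r - 1, by omega⟩
      rw [Function.iterate_succ_apply]
      have h3 : fwdDiff 1 (fun _ : ℕ => (1 : ℝ)) = fun _ => 0 := by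
        funext n
        show (1 : ℝ) - 1 = 0
        norm_num
      rw [h3]
      have h4 : ∀ t : ℕ, (fwdDiff 1)^[t] (fun _ : ℕ => (0 : ℝ)) = fun _ => 0 := by
        intro t
        induction t with
        | zero => rfl
        | succ t ih =>
          rw [Function.iterate_succ_apply]
          have h5 : fwdDiff 1 (fun _ : ℕ => (0 : ℝ)) = fun _ => 0 := by
            funext n
            show (0 : ℝ) - 0 = 0
            norm_num
          rw [h5, ih]
      rw [h4 s]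
    rw [h2] at h1
    simp only [mul_one] at h1
    exact h1.symm
  have hne : (fun l : Fin (r + 1) => ((-1 : ℝ) ^ (r - (l : ℕ)) * (r.choose l : ℝ))) ≠ 0 := by
    intro h
    have h1 := congrFun h (Fin.last r)
    simp at h1
  obtain ⟨c, hc, p, hp, h⟩ := pos_final r _ hsum hne
  refine ⟨c, hc, p, hp, ?_⟩
  filter_upwards [h] with N hN
  have e2 : ∀ n : ℕ, (fwdDiff 1)^[r + 1] (fun n : ℕ => (Nat.nth Nat.Prime n : ℝ)) n =
      ∑ l : Fin (r + 1), ((-1 : ℝ) ^ (r - (l : ℕ)) * (r.choose l : ℝ)) * d (n + l) := by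
    intro n
    rw [Function.iterate_succ_apply, e0, e1]
  simp only [e2]
  exact hN

end Pool.Agent.V11270.PG
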