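import Mathlib
import Pool.Agent.V11270.PG.Blocks

set_option autoImplicit false

/-!
# Linear forms in consecutive prime gaps: positions which dominate their neighbours
-/

namespace Pool.Agent.V11270.PG

open Finset Filter
open Pool.Agent.H646 (P rat)
open Pool.Agent.H646.ChebM (P_le P_strictMono le_P long_few)
open scoped Classical

/-- one window -/
theorem anti_one (r : ℕ) (b : Fin (r + 1) → ℝ) (hb : b ≠ 0) (τ : ℝ) (hτ : 0 < τ) :
    ∃ ε : ℝ, 0 < ε ∧ ∀ᶠ N : ℕ in atTop,
      (#{n ∈ range N | |LL b n| ≤ ε * Real.log N} : ℝ) ≤ τ * N := by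
  -- normalise
  obtain ⟨l0, hl0⟩ : ∃ l, b l ≠ 0 := by
    by_contra h
    push Not at h
    exact hb (funext h)
  have hbl : 0 < |b l0| := abs_pos.2 hl0
  set a : Fin (r + 1) → ℝ := fun l => b l / |b l0| with ha
  have hal : 1 / 2 ≤ |a l0| := by
    rw [ha]
    simp only
    rw [abs_div, abs_abs, div_self hbl.ne']
    norm_num
  have hLLa : ∀ n, LL a n = LL b n / |b l0| := by
    intro n
    unfold LL
    rw [Finset.sum_div]
    refine Finset.sum_congr rfl fun l _ => ?_
    rw [ha]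
    ring
  obtain ⟨C, hC, N₁, hmas⟩ := master (1 * (r + 1))
  obtain ⟨C₀, hC₀, hP⟩ := P_le
  have hC₀pos : 0 < C₀ := by linarith
  set h : ℝ := max 1 (8 * C₀ * (r + 1) / τ) with hh
  have hh1 : 1 ≤ h := le_max_left _ _
  have hh2 : 8 * C₀ * (r + 1) / τ ≤ h := le_max_right _ _
  set G : ℝ := C * 5 * (2 * h) ^ (r + 1) * (2 * h) ^ (r + 1) with hG
  have hGpos : 0 < G := by positivity
  set ε : ℝ := min 1 ((τ / 2) ^ 2 / G) with hε
  have hε0 : 0 < ε := lt_min one_pos (by positivity)
  have hε1 : ε ≤ 1 := min_le_left _ _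
  have hεG : G * ε ≤ (τ / 2) ^ 2 := by
    have : ε ≤ (τ / 2) ^ 2 / G := min_le_right _ _
    rw [le_div_iff₀ hGpos] at this
    linarith
  refine ⟨ε * |b l0|, by positivity, ?_⟩
  filter_upwards [eventually_ge_atTop N₁, eventually_ge_atTop (max 3 (r + 1)),
    eventually_ge_atTop ⌈Real.exp (1 / ε)⌉₊] with N hN hN' hN''
  have hN3 : 3 ≤ N := (le_max_left _ _).trans hN'
  have hkN : r + 1 ≤ N := (le_max_right _ _).trans hN'
  have hexp : Real.exp (1 / ε) ≤ N := (Nat.le_ceil _).trans (by exact_mod_cast hN'')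
  have hNpos : (0 : ℝ) < N := (Real.exp_pos _).trans_le hexp
  set T : ℝ := Real.log N with hT
  have hTε : 1 / ε ≤ T := by
    rw [hT, Real.le_log_iff_exp_le hNpos]
    exact hexp
  have hεT : 1 ≤ ε * T := by
    have := mul_le_mul_of_nonneg_left hTε hε0.le
    rwa [mul_one_div, div_self hε0.ne'] at this
  have hT1 : 1 ≤ T := by nlinarith
  have hT0 : 0 < T := by linarith
  set H : ℕ := ⌊h * T⌋₊ with hH
  have hHr : (H : ℝ) + 1 ≤ 2 * h * T := by
    have h1 : (H : ℝ) ≤ h * T := Nat.floor_le (by positivity)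
    nlinarith
  set D : Finset (Fin (1 * (r + 1)) → ℕ) :=
    {v ∈ Fintype.piFinset (fun _ : Fin (1 * (r + 1)) => range (H + 1)) |
      ∀ i : Fin 1, |∑ l : Fin (r + 1), a l * (v (finProdFinEquiv (i, l)) : ℝ)| ≤ ε * T} with hD
  have hDc := card_D r 1 H a l0 hal (ε * T) (by positivity)
  have hDc' : #D ≤ (⌊4 * (ε * T)⌋₊ + 1) ^ 1 * (H + 1) ^ (1 * r) := by
    refine le_trans (le_of_eq ?_) hDc
    rw [hD]
  have hWr : ((⌊4 * (ε * T)⌋₊ : ℕ) : ℝ) + 1 ≤ 5 * ε * T := by
    have h1 : ((⌊4 * (ε * T)⌋₊ : ℕ) : ℝ) ≤ 4 * (ε * T) := Nat.floor_le (by positivity)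
    nlinarith
  have hDr : (#D : ℝ) ≤ (5 * ε * T) * (2 * h * T) ^ r := by
    calc (#D : ℝ) ≤ (((⌊4 * (ε * T)⌋₊ + 1) ^ 1 * (H + 1) ^ (1 * r) : ℕ) : ℝ) := by
          exact_mod_cast hDc'
      _ = (((⌊4 * (ε * T)⌋₊ : ℕ) : ℝ) + 1) * ((H : ℝ) + 1) ^ r := by
          rw [pow_one, one_mul]
          push_cast
          ring
      _ ≤ _ := by gcongr
  have hm := hmas N hN H D (fun v hv t => by
    have h1 := (mem_filter.1 hv).1
    rw [Fintype.mem_piFinset] at h1
    have := mem_range.1 (h1 t)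
    omega)
  rw [← hT] at hm
  set Long : Finset ℕ := {n ∈ range N | h / ((r + 1 : ℕ) : ℝ) * ((r + 1 : ℕ) : ℝ) * T <
    (P (n + (r + 1)) : ℝ) - P n} with hLong
  have hcover : ({n ∈ range N | |LL b n| ≤ ε * |b l0| * T} : Finset ℕ) ⊆
      Long ∪ ({n ∈ range N | V (1 * (r + 1)) n ∈ D} : Finset ℕ) := by
    intro n hn
    rw [mem_filter] at hn
    rw [mem_union]
    by_cases hs : (P (n + (r + 1)) : ℝ) - P n ≤ h * T
    · right
      rw [mem_filter]
      refine ⟨hn.1, ?_⟩
      rw [hD, mem_filter, Fintype.mem_piFinset]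
      refine ⟨?_, ?_⟩
      · intro t
        rw [mem_range]
        have h4 : V (1 * (r + 1)) n t ≤ H := by
          rw [hH]
          apply Nat.le_floor
          refine le_trans ?_ hs
          unfold V
          have h5 : P (n + t) ≤ P (n + t + 1) := P_strictMono.monotone (by omega)
          have h6 : P n ≤ P (n + t) := P_strictMono.monotone (by omega)
          have h7 : P (n + t + 1) ≤ P (n + (r + 1)) := P_strictMono.monotone (by
            have := t.2
            omega)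
          rw [Nat.cast_sub h5]
          have h6' : (P n : ℝ) ≤ P (n + t) := by exact_mod_cast h6
          have h7' : (P (n + t + 1) : ℝ) ≤ P (n + (r + 1)) := by exact_mod_cast h7
          linarith
        omega
      · intro i
        rw [V_win]
        have hi : (i : ℕ) = 0 := by omega
        rw [hi, mul_zero, add_zero, hLLa, abs_div, abs_abs, div_le_iff₀ hbl]
        refine hn.2.trans (le_of_eq ?_)
        ring
    · left
      rw [hLong, mem_filter]
      refine ⟨hn.1, ?_⟩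
      rw [div_mul_cancel₀ _ (by positivity)]
      exact not_le.1 hs
  have hlong : (#Long : ℝ) ≤ τ / 2 * N := by
    have h1 := long_few (h / ((r + 1 : ℕ) : ℝ)) (by positivity) C₀ hC₀ hP N (r + 1) (by omega)
      (by omega) hkN
    refine h1.trans (mul_le_mul_of_nonneg_right ?_ hNpos.le)
    rw [div_le_iff₀ (by positivity)]
    rw [div_le_iff₀ hτ] at hh2
    have h2 : τ / 2 * (h / ((r + 1 : ℕ) : ℝ)) = (h * τ) / (2 * ((r + 1 : ℕ) : ℝ)) := by ring
    rw [h2, le_div_iff₀ (by positivity)]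
    push_cast
    linarith
  set x : ℝ := (#({n ∈ range N | V (1 * (r + 1)) n ∈ D} : Finset ℕ) : ℝ) with hx
  have hx2 : x ≤ τ / 2 * N := by
    have hx0 : 0 ≤ x := Nat.cast_nonneg _
    have h2 : (#D : ℝ) / T ^ (1 * (r + 1)) ≤ (5 * ε) * (2 * h) ^ (r + 1) := by
      rw [div_le_iff₀ (by positivity)]
      refine hDr.trans ?_
      rw [mul_pow (2 * h) T, one_mul]
      have h3 : (2 * h) ^ r ≤ (2 * h) ^ (r + 1) := pow_le_pow_right₀ (by linarith) (by omega)
      calc 5 * ε * T * ((2 * h) ^ r * T ^ r) = (5 * ε) * (2 * h) ^ r * T ^ (r + 1) := by ring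
        _ ≤ (5 * ε) * (2 * h) ^ (r + 1) * T ^ (r + 1) := by gcongr
    have h3 : (((H : ℝ) + 1) / T) ^ (1 * (r + 1)) ≤ (2 * h) ^ (r + 1) := by
      rw [one_mul]
      apply pow_le_pow_left₀ (by positivity)
      rw [div_le_iff₀ hT0]
      exact hHr
    have h4 : x ^ 2 ≤ (τ / 2 * N) ^ 2 := by
      refine hm.trans ?_
      calc C * (N : ℝ) ^ 2 * (#D / T ^ (1 * (r + 1))) * (((H : ℝ) + 1) / T) ^ (1 * (r + 1))
          ≤ C * (N : ℝ) ^ 2 * ((5 * ε) * (2 * h) ^ (r + 1)) * (2 * h) ^ (r + 1) := by gcongr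
        _ = G * ε * (N : ℝ) ^ 2 := by
            rw [hG]
            ring
        _ ≤ (τ / 2) ^ 2 * (N : ℝ) ^ 2 := by gcongr
        _ = _ := by ring
    exact le_of_sq_le_sq h4 (by positivity)
  have hfin : (#({n ∈ range N | |LL b n| ≤ ε * |b l0| * T} : Finset ℕ) : ℝ) ≤ #Long + x := by
    have h1 := (Finset.card_le_card hcover).trans (Finset.card_union_le _ _)
    rw [hx]
    exact_mod_cast h1
  linarith

/-- the form `L(n + s) - L(n)` -/
lemma LL_shift {r : ℕ} (b : Fin (r + 1) → ℝ) (hb : b ≠ 0) (s : ℕ) (hs : 1 ≤ s) :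
    ∃ b' : Fin (r + s + 1) → ℝ, b' ≠ 0 ∧ ∀ n, LL b' n = LL b (n + s) - LL b n := by
  set f : ℕ → ℝ := fun l => if h : l < r + 1 then b ⟨l, h⟩ else 0 with hf
  have hfb : ∀ l : Fin (r + 1), f l = b l := by
    intro l
    rw [hf]
    simp only
    rw [dif_pos l.2]
  have hf0 : ∀ l, r + 1 ≤ l → f l = 0 := by
    intro l hl
    rw [hf]
    simp only
    rw [dif_neg (by omega)]
  have hLf : ∀ n, LL b n = ∑ l ∈ range (r + 1), f l * ((P (n + l + 1) : ℝ) - P (n + l)) := by
    intro n
    rw [← Fin.sum_univ_eq_sum_range (fun l => f l * ((P (n + l + 1) : ℝ) - P (n + l))) (r + 1)]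
    unfold LL
    refine Finset.sum_congr rfl fun l _ => ?_
    rw [hfb]
  set g : ℕ → ℝ := fun l => (if s ≤ l then f (l - s) else 0) - f l with hg
  refine ⟨fun l => g l, ?_, ?_⟩
  · intro h0
    have hg0 : ∀ l, l < r + s + 1 → g l = 0 := by
      intro l hl
      exact congrFun h0 ⟨l, hl⟩
    have hall : ∀ l, f l = 0 := by
      intro l
      by_contra hne
      -- all f (l + j s) equal
      have h1 : ∀ j, f (l + j * s) ≠ 0 := by
        intro j
        induction j with
        | zero => simpa using hne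
        | succ j ih =>
          intro h2
          have h3 : l + j * s < r + 1 := by
            by_contra h4
            exact ih (hf0 _ (by omega))
          have h4 := hg0 (l + (j + 1) * s) (by
            have : (j + 1) * s = j * s + s := by ring
            omega)
          rw [hg] at h4
          simp only at h4
          rw [if_pos (by
            have : (j + 1) * s = j * s + s := by ring
            omega), h2, show l + (j + 1) * s - s = l + j * s by
            have : (j + 1) * s = j * s + s := by ring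
            omega, sub_zero] at h4
          exact ih h4
      exact h1 (r + 1) (hf0 _ (by nlinarith))
    apply hb
    funext l
    rw [← hfb, hall]
    rfl
  · intro n
    have e1 : LL (fun l : Fin (r + s + 1) => g l) n =
        ∑ l ∈ range (r + s + 1), g l * ((P (n + l + 1) : ℝ) - P (n + l)) := by
      unfold LL
      exact Fin.sum_univ_eq_sum_range (fun l => g l * ((P (n + l + 1) : ℝ) - P (n + l))) (r + s + 1)
    rw [e1, hLf, hLf]
    have e2 : ∀ l, g l * ((P (n + l + 1) : ℝ) - P (n + l)) =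
        (if s ≤ l then f (l - s) else 0) * ((P (n + l + 1) : ℝ) - P (n + l)) -
          f l * ((P (n + l + 1) : ℝ) - P (n + l)) := by
      intro l
      rw [hg]
      ring
    rw [Finset.sum_congr rfl fun l _ => e2 l, Finset.sum_sub_distrib]
    congr 1
    · rw [show r + s + 1 = s + (r + 1) by ring, Finset.sum_range_add]
      have e3 : ∑ l ∈ range s, (if s ≤ l then f (l - s) else 0) *
          ((P (n + l + 1) : ℝ) - P (n + l)) = 0 := by
        refine Finset.sum_eq_zero fun l hl => ?_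
        rw [if_neg (by
          have := mem_range.1 hl
          omega), zero_mul]
      rw [e3, zero_add]
      refine Finset.sum_congr rfl fun l _ => ?_
      rw [if_pos (by omega), show s + l - s = l by omega, show n + (s + l) = n + s + l by ring]
    · rw [show r + s + 1 = (r + 1) + s by ring, Finset.sum_range_add]
      have e3 : ∑ l ∈ range s, f (r + 1 + l) *
          ((P (n + (r + 1 + l) + 1) : ℝ) - P (n + (r + 1 + l))) = 0 := by
        refine Finset.sum_eq_zero fun l hl => ?_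
        rw [hf0 _ (by omega), zero_mul]
      rw [e3, add_zero]

/-- differences of the form are rarely small -/
theorem anti_diff (r : ℕ) (b : Fin (r + 1) → ℝ) (hb : b ≠ 0) (s : ℕ) (hs : 1 ≤ s) (τ : ℝ)
    (hτ : 0 < τ) : ∃ ε : ℝ, 0 < ε ∧ ∀ᶠ N : ℕ in atTop,
      (#{n ∈ range N | |LL b (n + s) - LL b n| ≤ ε * Real.log N} : ℝ) ≤ τ * N := by
  obtain ⟨b', hb', h⟩ := LL_shift b hb s hs
  obtain ⟨ε, hε, h1⟩ := anti_one (r + s) b' hb' τ hτ
  refine ⟨ε, hε, ?_⟩
  simp only [h] at h1
  exact h1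

/-- all differences in a block at once -/
theorem anti_block (r : ℕ) (b : Fin (r + 1) → ℝ) (hb : b ≠ 0) (K : ℕ) (τ : ℝ) (hτ : 0 < τ) :
    ∃ ε : ℝ, 0 < ε ∧ ∀ᶠ N : ℕ in atTop,
      (#{n ∈ range N | ∃ i < K, ∃ j < K, i < j ∧ |LL b (n + j) - LL b (n + i)| ≤ ε * Real.log N} : ℝ) ≤
        τ * N := by
  have h1 : ∀ K' : ℕ, ∀ τ' : ℝ, 0 < τ' → ∃ ε : ℝ, 0 < ε ∧ ∀ᶠ N : ℕ in atTop,
      (#{n ∈ range N | ∃ s < K', |LL b (n + (s + 1)) - LL b n| ≤ ε * Real.log N} : ℝ) ≤ τ' * N := by
    intro K'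
    induction K' with
    | zero =>
      intro τ' hτ'
      refine ⟨1, one_pos, Eventually.of_forall fun N => ?_⟩
      have h0 : 0 ≤ τ' * (N : ℝ) := by positivity
      simpa using h0
    | succ K' ih =>
      intro τ' hτ'
      obtain ⟨ε1, hε1, g1⟩ := ih (τ' / 2) (by positivity)
      obtain ⟨ε2, hε2, g2⟩ := anti_diff r b hb (K' + 1) (by omega) (τ' / 2) (by positivity)
      refine ⟨min ε1 ε2, lt_min hε1 hε2, ?_⟩
      filter_upwards [g1, g2, eventually_ge_atTop 1] with N g3 g4 hN1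
      have hT : 0 ≤ Real.log N := Real.log_natCast_nonneg N
      have hsub : ({n ∈ range N | ∃ s < K' + 1, |LL b (n + (s + 1)) - LL b n| ≤
          min ε1 ε2 * Real.log N} : Finset ℕ) ⊆
          ({n ∈ range N | ∃ s < K', |LL b (n + (s + 1)) - LL b n| ≤ ε1 * Real.log N} : Finset ℕ) ∪
          ({n ∈ range N | |LL b (n + (K' + 1)) - LL b n| ≤ ε2 * Real.log N} : Finset ℕ) := by
        intro n hn
        rw [mem_filter] at hn
        obtain ⟨hn1, s, hs, hn2⟩ := hn
        rw [mem_union, mem_filter, mem_filter]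
        rcases Nat.lt_succ_iff_lt_or_eq.1 hs with h | h
        · left
          exact ⟨hn1, s, h, hn2.trans (mul_le_mul_of_nonneg_right (min_le_left _ _) hT)⟩
        · right
          subst h
          exact ⟨hn1, hn2.trans (mul_le_mul_of_nonneg_right (min_le_right _ _) hT)⟩
      have h2 := (Finset.card_le_card hsub).trans (Finset.card_union_le _ _)
      have h3 : (#({n ∈ range N | ∃ s < K' + 1, |LL b (n + (s + 1)) - LL b n| ≤
          min ε1 ε2 * Real.log N} : Finset ℕ) : ℝ) ≤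
          (#({n ∈ range N | ∃ s < K', |LL b (n + (s + 1)) - LL b n| ≤ ε1 * Real.log N} : Finset ℕ) : ℝ) +
          (#({n ∈ range N | |LL b (n + (K' + 1)) - LL b n| ≤ ε2 * Real.log N} : Finset ℕ) : ℝ) := by
        exact_mod_cast h2
      linarith
  obtain ⟨ε, hε, h2⟩ := h1 K (τ / (2 * (K + 1))) (by positivity)
  refine ⟨ε, hε, ?_⟩
  filter_upwards [h2, eventually_ge_atTop ⌈2 * (K : ℝ) * K / τ⌉₊] with N h3 h4
  have h4' : 2 * (K : ℝ) * K ≤ τ * N := by
    have : 2 * (K : ℝ) * K / τ ≤ N := (Nat.le_ceil _).trans (by exact_mod_cast h4)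
    rw [div_le_iff₀ hτ] at this
    linarith
  obtain ⟨A, hA⟩ : ∃ A : ℕ → Prop, A = fun n => ∃ s < K, |LL b (n + (s + 1)) - LL b n| ≤
    ε * Real.log N := ⟨_, rfl⟩
  have hsub : ({n ∈ range N | ∃ i < K, ∃ j < K, i < j ∧
      |LL b (n + j) - LL b (n + i)| ≤ ε * Real.log N} : Finset ℕ) ⊆
      (range K).biUnion (fun i => {n ∈ range N | A (n + i)}) := by
    intro n hn
    rw [mem_filter] at hn
    obtain ⟨hn1, i, hi, j, hj, hij, hn2⟩ := hn
    rw [mem_biUnion]
    refine ⟨i, mem_range.2 hi, mem_filter.2 ⟨hn1, ?_⟩⟩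
    rw [hA]
    refine ⟨j - i - 1, by omega, ?_⟩
    rw [show n + i + (j - i - 1 + 1) = n + j by omega]
    exact hn2
  have h5 : #({n ∈ range N | ∃ i < K, ∃ j < K, i < j ∧
      |LL b (n + j) - LL b (n + i)| ≤ ε * Real.log N} : Finset ℕ) ≤
      ∑ i ∈ range K, (#({n ∈ range N | A n} : Finset ℕ) + K) := by
    refine (Finset.card_le_card hsub).trans (Finset.card_biUnion_le.trans
      (Finset.sum_le_sum fun i hi => ?_))
    have h6 := card_shift A i N
    have h7 := mem_range.1 hi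
    omega
  rw [Finset.sum_const, Finset.card_range, smul_eq_mul] at h5
  have h6 : (#({n ∈ range N | ∃ i < K, ∃ j < K, i < j ∧
      |LL b (n + j) - LL b (n + i)| ≤ ε * Real.log N} : Finset ℕ) : ℝ) ≤
      K * ((#({n ∈ range N | A n} : Finset ℕ) : ℝ) + K) := by exact_mod_cast h5
  have h7 : (#({n ∈ range N | A n} : Finset ℕ) : ℝ) ≤ τ / (2 * (K + 1)) * N := by
    subst hA
    convert h3
  have hKr : (0 : ℝ) ≤ K := Nat.cast_nonneg _
  have h8 : (K : ℝ) * (τ / (2 * (K + 1)) * N) ≤ τ / 2 * N := by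
    have : (K : ℝ) * (τ / (2 * (K + 1)) * N) = (K / (K + 1)) * (τ / 2 * N) := by
      field_simp
    rw [this]
    have h9 : (K : ℝ) / (K + 1) ≤ 1 := by
      rw [div_le_one (by positivity)]
      linarith
    have h10 : 0 ≤ τ / 2 * N := by positivity
    nlinarith
  have h9 : (K : ℝ) * ((#({n ∈ range N | A n} : Finset ℕ) : ℝ) + K) ≤
      K * (τ / (2 * (K + 1)) * N + K) := mul_le_mul_of_nonneg_left (by linarith) hKr
  nlinarith

end Pool.Agent.V11270.PG
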