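import Mathlib
import Pool.Agent.V11270.PG.Dom

set_option autoImplicit false

/-!
# Linear forms in consecutive prime gaps: positions which dominate their neighbours, in almost every block
-/

namespace Pool.Agent.V11270.PG

open Finset Filter
open Pool.Agent.H646 (P rat)
open Pool.Agent.H646.ChebM (P_le P_strictMono le_P long_few)
open scoped Classical

lemma valley (M : ℕ → ℝ) (J : ℕ) (hJ : 1 ≤ J) (hne : ∀ j < 2 * J, M j ≠ M (j + 1))
    (hno : ∀ j, j + 2 ≤ 2 * J → ¬ (M j < M (j + 1) ∧ M (j + 2) < M (j + 1))) :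
    (∀ j < J, M (j + 1) < M j) ∨ (∀ j < J, M (J + j) < M (J + j + 1)) := by
  rcases lt_or_gt_of_ne (hne J (by omega)) with h | h
  · right
    intro j
    induction j with
    | zero =>
      intro _
      exact h
    | succ j ih =>
      intro hj
      have h1 := ih (by omega)
      have h2 := hne (J + j + 1) (by omega)
      rw [show J + (j + 1) = J + j + 1 by ring]
      rcases lt_or_gt_of_ne h2 with h3 | h3
      · exact h3
      · exact absurd ⟨h1, h3⟩ (hno (J + j) (by omega))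
  · left
    have key : ∀ t ≤ J, M (J - t + 1) < M (J - t) := by
      intro t
      induction t with
      | zero =>
        intro _
        exact h
      | succ t ih =>
        intro ht
        have h1 := ih (by omega)
        have e : J - t = J - (t + 1) + 1 := by omega
        rw [e] at h1
        rcases lt_or_gt_of_ne (hne (J - (t + 1)) (by omega)) with h3 | h3
        · exact absurd ⟨h3, h1⟩ (hno (J - (t + 1)) (by omega))
        · exact h3
    intro j hj
    have h1 := key (J - j) (by omega)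
    rw [show J - (J - j) = j by omega] at h1
    exact h1

lemma markov (A : ℕ → Prop) (s J N : ℕ) (hJ : 1 ≤ J) :
    #{n ∈ range N | J ≤ 2 * #{t ∈ range J | A (n + s * t)}} ≤
      2 * (#{n ∈ range N | A n} + s * J) := by
  have h1 : #{n ∈ range N | J ≤ 2 * #{t ∈ range J | A (n + s * t)}} * J ≤
      ∑ n ∈ range N, 2 * #{t ∈ range J | A (n + s * t)} := by
    rw [← smul_eq_mul]
    calc _ ≤ ∑ n ∈ range N with J ≤ 2 * #{t ∈ range J | A (n + s * t)},
          2 * #{t ∈ range J | A (n + s * t)} := by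
          apply Finset.card_nsmul_le_sum
          intro n hn
          exact (mem_filter.1 hn).2
      _ ≤ _ := Finset.sum_le_sum_of_subset (Finset.filter_subset _ _)
  have h2 : ∑ n ∈ range N, 2 * #{t ∈ range J | A (n + s * t)} =
      2 * ∑ t ∈ range J, #{n ∈ range N | A (n + s * t)} := by
    rw [← Finset.mul_sum]
    congr 1
    have h3 : ∀ n ∈ range N, #{t ∈ range J | A (n + s * t)} =
        ∑ t ∈ range J, if A (n + s * t) then 1 else 0 := by
      intro n _
      rw [Finset.card_filter]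
    have h4 : ∀ t ∈ range J, #{n ∈ range N | A (n + s * t)} =
        ∑ n ∈ range N, if A (n + s * t) then 1 else 0 := by
      intro t _
      rw [Finset.card_filter]
    rw [Finset.sum_congr rfl h3, Finset.sum_congr rfl h4, Finset.sum_comm]
  have h3 : ∑ t ∈ range J, #{n ∈ range N | A (n + s * t)} ≤
      ∑ _t ∈ range J, (#{n ∈ range N | A n} + s * J) := by
    refine Finset.sum_le_sum fun t ht => ?_
    have h4 := card_shift A (s * t) N
    have h5 : s * t ≤ s * J := Nat.mul_le_mul_left _ (mem_range.1 ht).le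
    exact h4.trans (Nat.add_le_add_left h5 _)
  rw [Finset.sum_const, Finset.card_range, smul_eq_mul] at h3
  rw [h2] at h1
  have h4 : #{n ∈ range N | J ≤ 2 * #{t ∈ range J | A (n + s * t)}} * J ≤
      (2 * (#{n ∈ range N | A n} + s * J)) * J := by
    refine h1.trans ?_
    calc 2 * ∑ t ∈ range J, #{n ∈ range N | A (n + s * t)} ≤
          2 * (J * (#{n ∈ range N | A n} + s * J)) := Nat.mul_le_mul_left _ h3
      _ = _ := by ring
  exact Nat.le_of_mul_le_mul_right h4 hJ

lemma LL_abs {r : ℕ} (b : Fin (r + 1) → ℝ) (n j k a : ℕ) (ha : a ≤ k) :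
    |LL b (n + j + a)| ≤ ‖b‖ * ((P (n + j + (k + r + 1)) : ℝ) - P (n + j)) := by
  have h1 := LL_diff b (fun _ => 0) ‖b‖ (fun l => by
    rw [sub_zero]
    exact norm_le_pi_norm b l) (n + j + a)
  have h2 : LL (fun _ : Fin (r + 1) => (0 : ℝ)) (n + j + a) = 0 := by
    unfold LL
    simp
  rw [h2, sub_zero] at h1
  refine h1.trans (mul_le_mul_of_nonneg_left ?_ (norm_nonneg b))
  have h3 : P (n + j + a + (r + 1)) ≤ P (n + j + (k + r + 1)) := P_strictMono.monotone (by omega)
  have h4 : P (n + j) ≤ P (n + j + a) := P_strictMono.monotone (by omega)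
  have h3' : (P (n + j + a + (r + 1)) : ℝ) ≤ P (n + j + (k + r + 1)) := by exact_mod_cast h3
  have h4' : (P (n + j) : ℝ) ≤ P (n + j + a) := by exact_mod_cast h4
  linarith

/-- a sequence of window maxima which is monotone over many windows has large ends -/
lemma mono_large (M : ℕ → ℝ) (J : ℕ) (hm : ∀ j < J, M j ≤ M (j + 1)) (A : ℕ → Prop) (e : ℝ)
    (he : 0 ≤ e) (hA : ∀ j < J, ¬ A j → e ≤ M (j + 1) - M j) (hc : 2 * #{t ∈ range J | A t} ≤ J) :
    (J : ℝ) / 2 * e ≤ M J - M 0 := by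
  rw [← Finset.sum_range_sub]
  have h4 : ∀ t ∈ range J, (if A t then (0 : ℝ) else e) ≤ M (t + 1) - M t := by
    intro t ht
    split_ifs with h
    · linarith [hm t (mem_range.1 ht)]
    · exact hA t (mem_range.1 ht) h
  refine le_trans ?_ (Finset.sum_le_sum h4)
  rw [Finset.sum_ite, Finset.sum_const_zero, zero_add, Finset.sum_const, nsmul_eq_mul]
  apply mul_le_mul_of_nonneg_right _ he
  have h5 := Finset.card_filter_add_card_filter_not (s := range J) (fun t => A t)
  rw [Finset.card_range] at h5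
  have h6 : (J : ℝ) = (#{t ∈ range J | A t} : ℝ) + (#{t ∈ range J | ¬ A t} : ℝ) := by
    exact_mod_cast h5.symm
  have h7 : 2 * (#{t ∈ range J | A t} : ℝ) ≤ J := by exact_mod_cast hc
  linarith

/-- two nearly equal values in a block -/
def SP {r : ℕ} (b : Fin (r + 1) → ℝ) (K : ℕ) (e : ℝ) (n : ℕ) : Prop :=
  ∃ i < K, ∃ j < K, i < j ∧ |LL b (n + j) - LL b (n + i)| ≤ e

lemma anti_SP (r : ℕ) (b : Fin (r + 1) → ℝ) (hb : b ≠ 0) (K : ℕ) (τ : ℝ) (hτ : 0 < τ) :
    ∃ ε : ℝ, 0 < ε ∧ ∀ᶠ N : ℕ in atTop,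
      (#{n ∈ range N | SP b K (ε * Real.log N) n} : ℝ) ≤ τ * N := by
  obtain ⟨ε, hε, h⟩ := anti_block r b hb K τ hτ
  refine ⟨ε, hε, ?_⟩
  filter_upwards [h] with N hN
  unfold SP
  convert hN

/-- the position `m` dominates the `k` positions on each side -/
def Dm {r : ℕ} (b : Fin (r + 1) → ℝ) (k m : ℕ) (E : ℝ) : Prop :=
  ∀ i, m ≤ i + k → i ≤ m + k → i ≠ m → LL b i + E < LL b m

/-- the deterministic part -/
lemma dom_det {r : ℕ} (b : Fin (r + 1) → ℝ) (k J n : ℕ) (hJ : 1 ≤ J) (c e B : ℝ) (hc : 0 ≤ c)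
    (he : 0 < e) (hJB : 4 * (‖b‖ * B) < J * e)
    (h0 : (P (n + 0 * (k + 1) + (k + r + 1)) : ℝ) - P (n + 0 * (k + 1)) ≤ B)
    (h1 : (P (n + J * (k + 1) + (k + r + 1)) : ℝ) - P (n + J * (k + 1)) ≤ B)
    (h2 : (P (n + (2 * J) * (k + 1) + (k + r + 1)) : ℝ) - P (n + (2 * J) * (k + 1)) ≤ B)
    (hE1 : 2 * #{t ∈ range J | SP b (2 * (k + 1)) e (n + (k + 1) * t)} ≤ J)
    (hE2 : 2 * #{t ∈ range J | SP b (2 * (k + 1)) e (n + (k + 1) * J + (k + 1) * t)} ≤ J)
    (hpw : ¬ SP b ((2 * J + 1) * (k + 1)) c n) :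
    ∃ m, n + k ≤ m ∧ m + k ≤ n + (2 * J + 1) * (k + 1) ∧ Dm b k m c := by
  by_contra hcon
  push Not at hcon
  have hmax : ∀ j : ℕ, ∃ a, a ≤ k ∧ ∀ i ≤ k, LL b (n + j * (k + 1) + i) ≤ LL b (n + j * (k + 1) + a) := by
    intro j
    obtain ⟨a, ha, h⟩ := Finset.exists_max_image (range (k + 1))
      (fun i => LL b (n + j * (k + 1) + i)) ⟨0, mem_range.2 (by omega)⟩
    exact ⟨a, by
      have := mem_range.1 ha
      omega, fun i hi => h i (mem_range.2 (by omega))⟩
  choose a ha hmx using hmax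
  set M : ℕ → ℝ := fun j => LL b (n + j * (k + 1) + a j) with hM
  have hpw' : ∀ i j, i < (2 * J + 1) * (k + 1) → j < (2 * J + 1) * (k + 1) → i ≠ j →
      c < |LL b (n + j) - LL b (n + i)| := by
    intro i j hi hj hij
    by_contra h
    push Not at h
    rcases lt_or_gt_of_ne hij with h3 | h3
    · exact hpw ⟨i, hi, j, hj, h3, h⟩
    · exact hpw ⟨j, hj, i, hi, h3, by rwa [abs_sub_comm]⟩
  have hbd : ∀ j, j ≤ 2 * J → j * (k + 1) + a j < (2 * J + 1) * (k + 1) := by
    intro j hj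
    have h3 : (j + 1) * (k + 1) ≤ (2 * J + 1) * (k + 1) := Nat.mul_le_mul_right _ (by omega)
    have h4 : (j + 1) * (k + 1) = j * (k + 1) + (k + 1) := by ring
    have := ha j
    omega
  have hne : ∀ j < 2 * J, M j ≠ M (j + 1) := by
    intro j hj h
    have h3 := hpw' (j * (k + 1) + a j) ((j + 1) * (k + 1) + a (j + 1)) (hbd j (by omega))
      (hbd (j + 1) (by omega)) (by
        have h4 : (j + 1) * (k + 1) = j * (k + 1) + (k + 1) := by ring
        have := ha j
        omega)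
    rw [← add_assoc, ← add_assoc] at h3
    have h4 : LL b (n + (j + 1) * (k + 1) + a (j + 1)) - LL b (n + j * (k + 1) + a j) = 0 := by
      have : M j = M (j + 1) := h
      rw [hM] at this
      simp only at this
      linarith
    rw [h4, abs_zero] at h3
    linarith
  have hno : ∀ j, j + 2 ≤ 2 * J → ¬ (M j < M (j + 1) ∧ M (j + 2) < M (j + 1)) := by
    rintro j hj ⟨g1, g2⟩
    have e1 : (j + 1) * (k + 1) = j * (k + 1) + (k + 1) := by ring
    have e2 : (j + 2) * (k + 1) = j * (k + 1) + 2 * (k + 1) := by ring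
    have e3 : (j + 3) * (k + 1) = j * (k + 1) + 3 * (k + 1) := by ring
    have e4 : (j + 3) * (k + 1) ≤ (2 * J + 1) * (k + 1) := Nat.mul_le_mul_right _ (by omega)
    have ha1 := ha (j + 1)
    refine hcon (n + (j + 1) * (k + 1) + a (j + 1)) (by omega) (by omega) ?_
    intro i hi1 hi2 hi3
    obtain ⟨i', rfl⟩ : ∃ i', i = n + i' := ⟨i - n, by omega⟩
    -- compare
    have hle : LL b (n + i') ≤ M (j + 1) := by
      rcases lt_or_ge i' ((j + 1) * (k + 1)) with h3 | h3
      · have h4 := hmx j (i' - j * (k + 1)) (by omega)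
        rw [show n + j * (k + 1) + (i' - j * (k + 1)) = n + i' by omega] at h4
        exact h4.trans g1.le
      · rcases lt_or_ge i' ((j + 2) * (k + 1)) with h5 | h5
        · have h4 := hmx (j + 1) (i' - (j + 1) * (k + 1)) (by omega)
          rw [show n + (j + 1) * (k + 1) + (i' - (j + 1) * (k + 1)) = n + i' by omega] at h4
          exact h4
        · have h4 := hmx (j + 2) (i' - (j + 2) * (k + 1)) (by omega)
          rw [show n + (j + 2) * (k + 1) + (i' - (j + 2) * (k + 1)) = n + i' by omega] at h4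
          exact h4.trans g2.le
    have h3 := hpw' i' ((j + 1) * (k + 1) + a (j + 1)) (by omega) (by omega) (by omega)
    rw [← add_assoc] at h3
    have h4 : M (j + 1) = LL b (n + (j + 1) * (k + 1) + a (j + 1)) := rfl
    rw [h4] at hle
    rw [abs_of_nonneg (by linarith)] at h3
    linarith
  have hstep : ∀ j, j < 2 * J → (¬ SP b (2 * (k + 1)) e (n + j * (k + 1))) →
      e ≤ |M (j + 1) - M j| := by
    intro j _ h
    by_contra h3
    push Not at h3
    apply h
    have ha0 := ha j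
    have ha1 := ha (j + 1)
    refine ⟨a j, by omega, (k + 1) + a (j + 1), by omega, by omega, ?_⟩
    have h4 : n + j * (k + 1) + ((k + 1) + a (j + 1)) = n + (j + 1) * (k + 1) + a (j + 1) := by ring
    rw [h4]
    exact h3.le
  have hb0 : |M 0| ≤ ‖b‖ * B := (LL_abs b n (0 * (k + 1)) k (a 0) (ha 0)).trans
    (mul_le_mul_of_nonneg_left h0 (norm_nonneg b))
  have hb1 : |M J| ≤ ‖b‖ * B := (LL_abs b n (J * (k + 1)) k (a J) (ha J)).trans
    (mul_le_mul_of_nonneg_left h1 (norm_nonneg b))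
  have hb2 : |M (2 * J)| ≤ ‖b‖ * B := (LL_abs b n ((2 * J) * (k + 1)) k (a (2 * J)) (ha (2 * J))).trans
    (mul_le_mul_of_nonneg_left h2 (norm_nonneg b))
  rw [abs_le] at hb0 hb1 hb2
  rcases valley M J hJ hne hno with h | h
  · have h3 := mono_large (fun j => - M j) J (fun j hj => by
      have := h j hj
      linarith) (fun t => SP b (2 * (k + 1)) e (n + (k + 1) * t)) e he.le (by
      intro j hj hA
      have h4 := hstep j (by omega) (by
        rw [mul_comm j (k + 1)]
        exact hA)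
      have h5 := h j hj
      rw [abs_of_nonpos (by linarith)] at h4
      linarith) hE1
    linarith [hb0.2, hb1.1]
  · have h3 := mono_large (fun j => M (J + j)) J (fun j hj => (h j hj).le)
      (fun t => SP b (2 * (k + 1)) e (n + (k + 1) * J + (k + 1) * t)) e he.le (by
      intro j hj hA
      have h4 := hstep (J + j) (by omega) (by
        rw [show n + (J + j) * (k + 1) = n + (k + 1) * J + (k + 1) * j by ring]
        exact hA)
      have h5 := h j hj
      rw [abs_of_nonneg (by linarith)] at h4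
      exact h4) hE2
    rw [show J + J = 2 * J by ring, add_zero] at h3
    linarith [hb2.2, hb1.1]

/-- **dominating positions in almost every block** -/
theorem dom (r : ℕ) (b : Fin (r + 1) → ℝ) (hb : b ≠ 0) (k : ℕ) (τ : ℝ) (hτ : 0 < τ) :
    ∃ K : ℕ, ∃ c : ℝ, 0 < c ∧ ∀ᶠ N : ℕ in atTop,
      (#{n ∈ range N | ¬ ∃ m, n + k ≤ m ∧ m + k ≤ n + K ∧ Dm b k m (c * Real.log N)} : ℝ) ≤
        τ * N := by
  have hnb : 0 < ‖b‖ := norm_pos_iff.2 hb
  obtain ⟨ε, hε, h1⟩ := anti_SP r b hb (2 * (k + 1)) (τ / 16) (by positivity)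
  obtain ⟨C₀, hC₀, hP⟩ := P_le
  have hC₀pos : 0 < C₀ := by linarith
  obtain ⟨W, hW⟩ : ∃ W : ℕ, W = k + r + 1 := ⟨_, rfl⟩
  have hW1 : 1 ≤ W := by omega
  have hWr : (1 : ℝ) ≤ W := by exact_mod_cast hW1
  obtain ⟨B, hB⟩ : ∃ B : ℝ, B = 64 * C₀ * W / τ := ⟨_, rfl⟩
  have hBpos : 0 < B := by
    rw [hB]
    positivity
  obtain ⟨J, hJ⟩ := exists_nat_gt (4 * (‖b‖ * B) / ε)
  have hJpos : (0 : ℝ) < J := lt_trans (by positivity) hJ
  have hJ1 : 1 ≤ J := by
    have : 0 < J := by exact_mod_cast hJpos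
    omega
  rw [div_lt_iff₀ hε] at hJ
  obtain ⟨c, hc, h2⟩ := anti_SP r b hb ((2 * J + 1) * (k + 1)) (τ / 16) (by positivity)
  obtain ⟨K, hK⟩ : ∃ K : ℕ, K = (2 * J + 1) * (k + 1) := ⟨_, rfl⟩
  rw [← hK] at h2
  refine ⟨K, c, hc, ?_⟩
  filter_upwards [h1, h2, eventually_ge_atTop (max 3 W), eventually_ge_atTop ⌈32 * (K : ℝ) / τ⌉₊]
    with N hN1 hN2 hN3 hN4
  have hN3a : 3 ≤ N := (le_max_left _ _).trans hN3
  have hN3b : W ≤ N := (le_max_right _ _).trans hN3
  have hNr : (3 : ℝ) ≤ N := by exact_mod_cast hN3a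
  have hNpos : (0 : ℝ) < N := by linarith
  have hT0 : 0 < Real.log N := Real.log_pos (by linarith)
  obtain ⟨T, hT⟩ : ∃ T : ℝ, T = Real.log N := ⟨_, rfl⟩
  rw [← hT] at hN1 hN2 hT0 ⊢
  have hN4' : 32 * (K : ℝ) ≤ τ * N := by
    have : 32 * (K : ℝ) / τ ≤ N := (Nat.le_ceil _).trans (by exact_mod_cast hN4)
    rw [div_le_iff₀ hτ] at this
    linarith
  obtain ⟨Lg, hLg⟩ : ∃ Lg : ℕ → Prop, Lg = fun n => B / (W : ℝ) * (W : ℝ) * T <
      (P (n + W) : ℝ) - P n := ⟨_, rfl⟩
  obtain ⟨A, hA⟩ : ∃ A : ℕ → Prop, A = SP b (2 * (k + 1)) (ε * T) := ⟨_, rfl⟩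
  obtain ⟨E, hE⟩ : ∃ E : ℕ → Prop, E = fun n => J ≤ 2 * #{t ∈ range J | A (n + (k + 1) * t)} :=
    ⟨_, rfl⟩
  obtain ⟨Pw, hPw⟩ : ∃ Pw : ℕ → Prop, Pw = SP b K (c * T) := ⟨_, rfl⟩
  have hLgc : (#{n ∈ range N | Lg n} : ℝ) ≤ τ / 16 * N := by
    have g1 := long_few (B / (W : ℝ)) (by positivity) C₀ hC₀ hP N W (by omega) hW1 hN3b
    rw [← hT] at g1
    have g2 : (#{n ∈ range N | Lg n} : ℝ) ≤ 4 * C₀ / (B / W) * N := by
      rw [hLg]
      convert g1
    refine g2.trans (le_of_eq ?_)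
    rw [hB]
    field_simp
    norm_num
  have hAc : (#{n ∈ range N | A n} : ℝ) ≤ τ / 16 * N := by
    rw [hA]
    exact hN1
  have hPwc : (#{n ∈ range N | Pw n} : ℝ) ≤ τ / 16 * N := by
    rw [hPw]
    exact hN2
  have hKJ : (2 * J) * (k + 1) ≤ K := by
    rw [hK]
    exact Nat.mul_le_mul_right _ (by omega)
  have hKJ1 : J * (k + 1) ≤ K := (Nat.mul_le_mul_right _ (by omega)).trans hKJ
  have hEc : (#{n ∈ range N | E n} : ℝ) ≤ τ / 8 * N + 2 * K := by
    have g1 := markov A (k + 1) J N hJ1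
    have g2 : #{n ∈ range N | E n} ≤ 2 * (#{n ∈ range N | A n} + (k + 1) * J) := by
      rw [hE]
      convert g1
    have g3 : #{n ∈ range N | E n} ≤ 2 * (#{n ∈ range N | A n} + K) := by
      refine g2.trans (Nat.mul_le_mul_left _ (Nat.add_le_add_left ?_ _))
      rw [mul_comm]
      exact hKJ1
    have g4 : (#{n ∈ range N | E n} : ℝ) ≤ 2 * ((#{n ∈ range N | A n} : ℝ) + K) := by
      exact_mod_cast g3
    linarith
  have hcover : ({n ∈ range N | ¬ ∃ m, n + k ≤ m ∧ m + k ≤ n + K ∧ Dm b k m (c * T)} : Finset ℕ) ⊆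
      ({n ∈ range N | Lg n} : Finset ℕ) ∪ (({n ∈ range N | Lg (n + J * (k + 1))} : Finset ℕ) ∪
      (({n ∈ range N | Lg (n + (2 * J) * (k + 1))} : Finset ℕ) ∪ (({n ∈ range N | E n} : Finset ℕ) ∪
      (({n ∈ range N | E (n + J * (k + 1))} : Finset ℕ) ∪ ({n ∈ range N | Pw n} : Finset ℕ))))) := by
    intro n hn
    rw [mem_filter] at hn
    obtain ⟨hnN, hn⟩ := hn
    simp only [mem_union, mem_filter]
    by_contra hcon
    push Not at hcon
    obtain ⟨g1, g2, g3, g4, g5, g6⟩ := hcon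
    have g1 := g1 hnN
    have g2 := g2 hnN
    have g3 := g3 hnN
    have g4 := g4 hnN
    have g5 := g5 hnN
    have g6 := g6 hnN
    have hLg' : ∀ x, ¬ Lg x → (P (x + (k + r + 1)) : ℝ) - P x ≤ B * T := by
      intro x hx
      rw [hLg] at hx
      simp only at hx
      rw [div_mul_cancel₀ _ (by positivity), not_lt, hW] at hx
      exact hx
    rw [hE] at g4 g5
    simp only [not_le] at g4 g5
    rw [hA] at g4 g5
    apply hn
    have g7 := dom_det b k J n hJ1 (c * T) (ε * T) (B * T) (by positivity) (by positivity)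
      (by nlinarith) (by
        rw [zero_mul, add_zero]
        exact hLg' _ g1) (hLg' _ g2) (hLg' _ g3) g4.le (by
        rw [mul_comm J (k + 1)] at g5
        exact g5.le) (by
        rw [← hK]
        rw [hPw] at g6
        exact g6)
    rw [← hK] at g7
    exact g7
  have hL1 : (#{n ∈ range N | Lg (n + J * (k + 1))} : ℝ) ≤ τ / 16 * N + K := by
    have g1 := card_shift Lg (J * (k + 1)) N
    have g2 : (#{n ∈ range N | Lg (n + J * (k + 1))} : ℝ) ≤ (#{n ∈ range N | Lg n} : ℝ) + K := by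
      exact_mod_cast g1.trans (Nat.add_le_add_left hKJ1 _)
    linarith
  have hL2 : (#{n ∈ range N | Lg (n + (2 * J) * (k + 1))} : ℝ) ≤ τ / 16 * N + K := by
    have g1 := card_shift Lg ((2 * J) * (k + 1)) N
    have g2 : (#{n ∈ range N | Lg (n + (2 * J) * (k + 1))} : ℝ) ≤ (#{n ∈ range N | Lg n} : ℝ) + K := by
      exact_mod_cast g1.trans (Nat.add_le_add_left hKJ _)
    linarith
  have hE2 : (#{n ∈ range N | E (n + J * (k + 1))} : ℝ) ≤ τ / 8 * N + 3 * K := by
    have g1 := card_shift E (J * (k + 1)) N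
    have g2 : (#{n ∈ range N | E (n + J * (k + 1))} : ℝ) ≤ (#{n ∈ range N | E n} : ℝ) + K := by
      exact_mod_cast g1.trans (Nat.add_le_add_left hKJ1 _)
    linarith
  have hfin : (#({n ∈ range N | ¬ ∃ m, n + k ≤ m ∧ m + k ≤ n + K ∧ Dm b k m (c * T)} : Finset ℕ) : ℝ) ≤
      (#{n ∈ range N | Lg n} : ℝ) + ((#{n ∈ range N | Lg (n + J * (k + 1))} : ℝ) +
        ((#{n ∈ range N | Lg (n + (2 * J) * (k + 1))} : ℝ) + ((#{n ∈ range N | E n} : ℝ) +
        ((#{n ∈ range N | E (n + J * (k + 1))} : ℝ) + (#{n ∈ range N | Pw n} : ℝ))))) := by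
    have g1 : #({n ∈ range N | ¬ ∃ m, n + k ≤ m ∧ m + k ≤ n + K ∧ Dm b k m (c * T)} : Finset ℕ) ≤
      #{n ∈ range N | Lg n} + (#{n ∈ range N | Lg (n + J * (k + 1))} +
        (#{n ∈ range N | Lg (n + (2 * J) * (k + 1))} + (#{n ∈ range N | E n} +
        (#{n ∈ range N | E (n + J * (k + 1))} + #{n ∈ range N | Pw n})))) := by
      refine (Finset.card_le_card hcover).trans ?_
      refine (Finset.card_union_le _ _).trans (Nat.add_le_add_left ?_ _)
      refine (Finset.card_union_le _ _).trans (Nat.add_le_add_left ?_ _)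
      refine (Finset.card_union_le _ _).trans (Nat.add_le_add_left ?_ _)
      refine (Finset.card_union_le _ _).trans (Nat.add_le_add_left ?_ _)
      exact Finset.card_union_le _ _
    exact_mod_cast g1
  linarith

end Pool.Agent.V11270.PG
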