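import Mathlib
import Pool.Agent.V11270.PG.DomB

set_option autoImplicit false

/-!
# Linear forms in consecutive prime gaps: final form of the result on dominating positions
-/

namespace Pool.Agent.V11270.PG

open Finset Filter
open Pool.Agent.H646 (P rat)
open scoped Classical

lemma ncard_eq' (A : ℕ → Prop) [DecidablePred A] (N : ℕ) : {n : ℕ | n < N ∧ A n}.ncard = #{n ∈ range N | A n} := by
  rw [← Set.ncard_coe_finset]
  congr 1
  ext n
  simp

lemma pos_of_blocks (A : ℕ → Prop) (K N : ℕ)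
    (h : (#{n ∈ range N | ¬ ∃ j < K, A (n + j)} : ℝ) ≤ 1 / 2 * N) (hN : 4 * (K + 1) * (K + 1) ≤ N) :
    1 / (4 * ((K : ℝ) + 1)) * N ≤ (#{n ∈ range N | A n} : ℝ) := by
  have hN2' : 4 * ((K : ℝ) + 1) * (K + 1) ≤ N := by exact_mod_cast hN
  have h1 : range N ⊆ ({n ∈ range N | ¬ ∃ j < K, A (n + j)} : Finset ℕ) ∪
      (range K).biUnion (fun i => {n ∈ range N | A (n + i)}) := by
    intro n hn
    rw [mem_union, mem_filter, mem_biUnion]
    by_cases hnS : ∃ j < K, A (n + j)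
    · right
      obtain ⟨i, hi, h2⟩ := hnS
      exact ⟨i, mem_range.2 hi, mem_filter.2 ⟨hn, h2⟩⟩
    · exact Or.inl ⟨hn, hnS⟩
  have h3 : N ≤ #{n ∈ range N | ¬ ∃ j < K, A (n + j)} +
      ∑ i ∈ range K, (#({n ∈ range N | A n} : Finset ℕ) + K) := by
    calc N = #(range N) := (Finset.card_range N).symm
      _ ≤ _ := (Finset.card_le_card h1).trans (Finset.card_union_le _ _)
      _ ≤ _ := by
          apply Nat.add_le_add_left
          refine Finset.card_biUnion_le.trans (Finset.sum_le_sum fun i hi => ?_)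
          have h4 := card_shift A i N
          have h5 := mem_range.1 hi
          omega
  rw [Finset.sum_const, Finset.card_range, smul_eq_mul] at h3
  have h4 : (N : ℝ) ≤ (#{n ∈ range N | ¬ ∃ j < K, A (n + j)} : ℝ) +
      K * ((#({n ∈ range N | A n} : Finset ℕ) : ℝ) + K) := by
    exact_mod_cast h3
  obtain ⟨x, hx⟩ : ∃ x : ℝ, x = (#({n ∈ range N | A n} : Finset ℕ) : ℝ) := ⟨_, rfl⟩
  rw [← hx] at h4 ⊢
  have hx0 : 0 ≤ x := by
    rw [hx]
    exact Nat.cast_nonneg _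
  have hKr : (0 : ℝ) ≤ K := Nat.cast_nonneg _
  rw [one_div_mul_eq_div, div_le_iff₀ (by positivity)]
  nlinarith

lemma LL_neg {r : ℕ} (b : Fin (r + 1) → ℝ) (n : ℕ) : LL (-b) n = - LL b n := by
  unfold LL
  rw [← Finset.sum_neg_distrib]
  refine Finset.sum_congr rfl fun l _ => ?_
  rw [Pi.neg_apply]
  ring

theorem dom_final (r : ℕ) (b : Fin (r + 1) → ℝ) (hb : b ≠ 0) (k : ℕ) :
    (∀ τ : ℝ, 0 < τ → ∃ K : ℕ, ∃ c : ℝ, 0 < c ∧ ∀ᶠ N : ℕ in atTop,
      ({n : ℕ | n < N ∧ ¬ ((∃ m, n + k ≤ m ∧ m + k ≤ n + K ∧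
          ∀ i, m ≤ i + k → i ≤ m + k → i ≠ m → LL b i + c * Real.log N < LL b m) ∧
        (∃ m, n + k ≤ m ∧ m + k ≤ n + K ∧
          ∀ i, m ≤ i + k → i ≤ m + k → i ≠ m → LL b m + c * Real.log N < LL b i))}.ncard : ℝ) ≤
        τ * N) ∧
    (∃ c : ℝ, 0 < c ∧ ∃ p : ℝ, 0 < p ∧ ∀ᶠ N : ℕ in atTop,
      p * N ≤ ({m : ℕ | m < N ∧
        ∀ i, m ≤ i + k → i ≤ m + k → i ≠ m → LL b i + c * Real.log N < LL b m}.ncard : ℝ) ∧
      p * N ≤ ({m : ℕ | m < N ∧
        ∀ i, m ≤ i + k → i ≤ m + k → i ≠ m → LL b m + c * Real.log N < LL b i}.ncard : ℝ)) := by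
  constructor
  · intro τ hτ
    obtain ⟨K1, c1, hc1, h1⟩ := dom r b hb k (τ / 2) (by positivity)
    obtain ⟨K2, c2, hc2, h2⟩ := dom r (-b) (neg_ne_zero.2 hb) k (τ / 2) (by positivity)
    refine ⟨max K1 K2, min c1 c2, lt_min hc1 hc2, ?_⟩
    filter_upwards [h1, h2] with N g1 g2
    have hT : 0 ≤ Real.log N := Real.log_natCast_nonneg N
    rw [ncard_eq']
    have hsub : ({n ∈ range N | ¬ ((∃ m, n + k ≤ m ∧ m + k ≤ n + max K1 K2 ∧
          ∀ i, m ≤ i + k → i ≤ m + k → i ≠ m → LL b i + min c1 c2 * Real.log N < LL b m) ∧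
        (∃ m, n + k ≤ m ∧ m + k ≤ n + max K1 K2 ∧
          ∀ i, m ≤ i + k → i ≤ m + k → i ≠ m → LL b m + min c1 c2 * Real.log N < LL b i))} :
        Finset ℕ) ⊆
        ({n ∈ range N | ¬ ∃ m, n + k ≤ m ∧ m + k ≤ n + K1 ∧ Dm b k m (c1 * Real.log N)} : Finset ℕ) ∪
        ({n ∈ range N | ¬ ∃ m, n + k ≤ m ∧ m + k ≤ n + K2 ∧ Dm (-b) k m (c2 * Real.log N)} :
          Finset ℕ) := by
      intro n hn
      rw [mem_filter] at hn
      rw [mem_union, mem_filter, mem_filter]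
      by_contra hcon
      push Not at hcon
      obtain ⟨m1, a1, a2, a3⟩ := hcon.1 hn.1
      obtain ⟨m2, b1, b2, b3⟩ := hcon.2 hn.1
      apply hn.2
      refine ⟨⟨m1, a1, a2.trans (Nat.add_le_add_left (le_max_left _ _) _), ?_⟩,
        ⟨m2, b1, b2.trans (Nat.add_le_add_left (le_max_right _ _) _), ?_⟩⟩
      · intro i hi1 hi2 hi3
        have h3 := a3 i hi1 hi2 hi3
        have h4 := mul_le_mul_of_nonneg_right (min_le_left c1 c2) hT
        linarith
      · intro i hi1 hi2 hi3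
        have h3 := b3 i hi1 hi2 hi3
        rw [LL_neg, LL_neg] at h3
        have h4 := mul_le_mul_of_nonneg_right (min_le_right c1 c2) hT
        linarith
    have h3 := (Finset.card_le_card hsub).trans (Finset.card_union_le _ _)
    have h4 : (#({n ∈ range N | ¬ ((∃ m, n + k ≤ m ∧ m + k ≤ n + max K1 K2 ∧
          ∀ i, m ≤ i + k → i ≤ m + k → i ≠ m → LL b i + min c1 c2 * Real.log N < LL b m) ∧
        (∃ m, n + k ≤ m ∧ m + k ≤ n + max K1 K2 ∧
          ∀ i, m ≤ i + k → i ≤ m + k → i ≠ m → LL b m + min c1 c2 * Real.log N < LL b i))} :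
        Finset ℕ) : ℝ) ≤
        (#({n ∈ range N | ¬ ∃ m, n + k ≤ m ∧ m + k ≤ n + K1 ∧ Dm b k m (c1 * Real.log N)} :
          Finset ℕ) : ℝ) +
        (#({n ∈ range N | ¬ ∃ m, n + k ≤ m ∧ m + k ≤ n + K2 ∧ Dm (-b) k m (c2 * Real.log N)} :
          Finset ℕ) : ℝ) := by exact_mod_cast h3
    linarith
  · have key : ∀ b' : Fin (r + 1) → ℝ, b' ≠ 0 → ∃ c : ℝ, 0 < c ∧ ∃ p : ℝ, 0 < p ∧
        ∀ᶠ N : ℕ in atTop, p * N ≤ (#{m ∈ range N | Dm b' k m (c * Real.log N)} : ℝ) := by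
      intro b' hb'
      obtain ⟨K, c, hc, h1⟩ := dom r b' hb' k (1 / 2) (by norm_num)
      refine ⟨c, hc, 1 / (4 * (((K + 1 : ℕ) : ℝ) + 1)), by positivity, ?_⟩
      filter_upwards [h1, eventually_ge_atTop (4 * (K + 1 + 1) * (K + 1 + 1))] with N g1 g2
      obtain ⟨A, hA⟩ : ∃ A : ℕ → Prop, A = fun m => Dm b' k m (c * Real.log N) := ⟨_, rfl⟩
      have g3 := pos_of_blocks A (K + 1) N (by
        refine le_trans ?_ g1
        have hsub : ({n ∈ range N | ¬ ∃ j < K + 1, A (n + j)} : Finset ℕ) ⊆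
            ({n ∈ range N | ¬ ∃ m, n + k ≤ m ∧ m + k ≤ n + K ∧ Dm b' k m (c * Real.log N)} :
              Finset ℕ) := by
          intro n hn
          rw [mem_filter] at hn ⊢
          refine ⟨hn.1, fun h => hn.2 ?_⟩
          obtain ⟨m, h3, h4, h5⟩ := h
          refine ⟨m - n, by omega, ?_⟩
          rw [hA, show n + (m - n) = m by omega]
          exact h5
        exact_mod_cast Finset.card_le_card hsub) g2
      rw [hA] at g3
      exact g3
    obtain ⟨c1, hc1, p1, hp1, h1⟩ := key b hb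
    obtain ⟨c2, hc2, p2, hp2, h2⟩ := key (-b) (neg_ne_zero.2 hb)
    refine ⟨min c1 c2, lt_min hc1 hc2, min p1 p2, lt_min hp1 hp2, ?_⟩
    filter_upwards [h1, h2] with N g1 g2
    have hT : 0 ≤ Real.log N := Real.log_natCast_nonneg N
    have hN0 : (0 : ℝ) ≤ N := Nat.cast_nonneg N
    rw [ncard_eq', ncard_eq']
    constructor
    · refine (mul_le_mul_of_nonneg_right (min_le_left p1 p2) hN0).trans (g1.trans ?_)
      have hsub : ({m ∈ range N | Dm b k m (c1 * Real.log N)} : Finset ℕ) ⊆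
          ({m ∈ range N | ∀ i, m ≤ i + k → i ≤ m + k → i ≠ m →
            LL b i + min c1 c2 * Real.log N < LL b m} : Finset ℕ) := by
        intro m hm
        rw [mem_filter] at hm ⊢
        refine ⟨hm.1, fun i hi1 hi2 hi3 => ?_⟩
        have h3 := hm.2 i hi1 hi2 hi3
        have h4 := mul_le_mul_of_nonneg_right (min_le_left c1 c2) hT
        linarith
      exact_mod_cast Finset.card_le_card hsub
    · refine (mul_le_mul_of_nonneg_right (min_le_right p1 p2) hN0).trans (g2.trans ?_)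
      have hsub : ({m ∈ range N | Dm (-b) k m (c2 * Real.log N)} : Finset ℕ) ⊆
          ({m ∈ range N | ∀ i, m ≤ i + k → i ≤ m + k → i ≠ m →
            LL b m + min c1 c2 * Real.log N < LL b i} : Finset ℕ) := by
        intro m hm
        rw [mem_filter] at hm ⊢
        refine ⟨hm.1, fun i hi1 hi2 hi3 => ?_⟩
        have h3 := hm.2 i hi1 hi2 hi3
        rw [LL_neg, LL_neg] at h3
        have h4 := mul_le_mul_of_nonneg_right (min_le_right c1 c2) hT
        linarith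
      exact_mod_cast Finset.card_le_card hsub

end Pool.Agent.V11270.PG
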